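import Pool.Agent.Helper99_LC.Defs

/-!
General facts on the entropy.
-/

set_option autoImplicit false

open MeasureTheory Set Filter Topology
open scoped ENNReal Topology

namespace Pool.Agent.Helper99_LC

variable {G : Type} [Group G] [TopologicalSpace G] [MeasurableSpace G] {lam : Measure G}

lemma vol_pos (M : FinVolSpace G lam) : (0 : EReal) < ((M.vol univ : ℝ≥0∞) : EReal) := by
  have := pos_iff_ne_zero.2 M.vol_ne_zero
  exact_mod_cast this

lemma vol_top (M : FinVolSpace G lam) : ((M.vol univ : ℝ≥0∞) : EReal) ≠ ⊤ := by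
  have := M.vol_ne_top
  simpa using this

lemma sepNumber_eq_zero (M : FinVolSpace G lam) (A : PmpAction G) (U : Set G) (δ : ℝ≥0∞)
    (O : Set (ProbabilityMeasure A.X)) (ε : ℝ≥0∞) (h : microstates M A U δ O = ∅) :
    sepNumber M A U δ O ε = 0 := by
  rw [sepNumber, h]
  simp only [subset_empty_iff, Finset.coe_eq_empty]
  refine le_antisymm ?_ zero_le
  refine iSup_le fun S => iSup_le fun hS => iSup_le fun _ => ?_
  rw [hS]; simp

lemma microstates_mono (M : FinVolSpace G lam) (A : PmpAction G) {U U' : Set G} {δ δ' : ℝ≥0∞}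
    {O O' : Set (ProbabilityMeasure A.X)} (hU : U ⊆ U') (hδ : δ' ≤ δ) (hO : O' ⊆ O) :
    microstates M A U' δ' O' ⊆ microstates M A U δ O := by
  rintro φ ⟨h1, h2, ν, h3, h4⟩
  exact ⟨h1, fun g hg => (h2 g (hU hg)).trans_le hδ, ν, hO h3, h4⟩

/-- If microstates do not exist for large `i`, the entropy is `-∞`. -/
theorem entropy_eq_bot (S : SoficApprox G lam) (A : PmpAction G) (U : Set G) (hU : IsOpen U)
    (hUc : IsCompact (closure U)) (δ : ℝ≥0∞) (hδ : 0 < δ) (O : Set (ProbabilityMeasure A.X))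
    (hO : O ∈ 𝓝 A.μ) (h : ∀ᶠ i in atTop, microstates (S.M i) A U δ O = ∅) :
    entropy S A = ⊥ := by
  rw [entropy]
  refine le_bot_iff.1 (iSup_le fun ε => iSup_le fun hε => ?_)
  refine iInf_le_of_le U (iInf_le_of_le hU (iInf_le_of_le hUc (iInf_le_of_le δ
    (iInf_le_of_le hδ (iInf_le_of_le O (iInf_le_of_le hO ?_))))))
  have h1 : (fun i => ENNReal.log (sepNumber (S.M i) A U δ O ε) /
        (((S.M i).vol univ : ℝ≥0∞) : EReal)) =ᶠ[atTop] fun _ => ⊥ := by
    filter_upwards [h] with i hi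
    rw [sepNumber_eq_zero _ _ _ _ _ _ hi, ENNReal.log_zero,
      EReal.bot_div_of_pos_ne_top (vol_pos _) (vol_top _)]
  rw [limsup_congr h1, limsup_const]

/-- Otherwise microstates exist for arbitrarily large `i`. -/
theorem frequently_of_ne_bot (S : SoficApprox G lam) (A : PmpAction G)
    (h : entropy S A ≠ ⊥) (U : Set G) (hU : IsOpen U)
    (hUc : IsCompact (closure U)) (δ : ℝ≥0∞) (hδ : 0 < δ) (O : Set (ProbabilityMeasure A.X))
    (hO : O ∈ 𝓝 A.μ) : ∃ᶠ i in atTop, (microstates (S.M i) A U δ O).Nonempty := by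
  by_contra hcon
  apply h
  apply entropy_eq_bot S A U hU hUc δ hδ O hO
  rw [not_frequently] at hcon
  filter_upwards [hcon] with i hi
  exact not_nonempty_iff_eq_empty.1 hi

/-- A criterion for infinite entropy. -/
theorem entropy_eq_top (S : SoficApprox G lam) (A : PmpAction G)
    (h : ∀ R : ℝ, ∃ ε : ℝ≥0∞, 0 < ε ∧ ∀ (U : Set G), IsOpen U → IsCompact (closure U) →
      ∀ δ : ℝ≥0∞, 0 < δ → ∀ O ∈ 𝓝 A.μ, ∃ᶠ i in atTop, (R : EReal) ≤
        ENNReal.log (sepNumber (S.M i) A U δ O ε) / (((S.M i).vol univ : ℝ≥0∞) : EReal)) :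
    entropy S A = ⊤ := by
  rw [EReal.eq_top_iff_forall_lt]
  intro y
  obtain ⟨ε, hε, h1⟩ := h (y + 1)
  have h2 : ((y + 1 : ℝ) : EReal) ≤ entropy S A := by
    rw [entropy]
    refine le_iSup_of_le ε (le_iSup_of_le hε ?_)
    refine le_iInf fun U => le_iInf fun hU => le_iInf fun hUc => le_iInf fun δ => le_iInf fun hδ =>
      le_iInf fun O => le_iInf fun hO => ?_
    exact le_limsup_of_frequently_le (h1 U hU hUc δ hδ O hO)
  refine lt_of_lt_of_le ?_ h2
  exact_mod_cast lt_add_one y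

end Pool.Agent.Helper99_LC
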