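import Pool.Agent.Helper99_LC.Model
import Pool.Agent.Helper99_LC.EntGen

/-!
Automorphisms of the model spaces.
-/

set_option autoImplicit false

open MeasureTheory Set Filter Topology
open scoped ENNReal Topology

namespace Pool.Agent.Helper99_LC

variable {Γ : Type} [Group Γ] [TopologicalSpace Γ] [DiscreteTopology Γ] [Countable Γ]
  {k : ℕ} (π : Γ →* Equiv.Perm (Fin k)) {j : ℕ}

/-- The translation vector attached to a labelling. -/
def cvec (a : Fin k → Fin j → ZMod 2) (v : Fin k) : NN Γ :=
  fun d i => if h : i < j then a (π d⁻¹ v) ⟨i, h⟩ else 0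

omit [TopologicalSpace Γ] [DiscreteTopology Γ] [Countable Γ] in
lemma shift_cvec (a : Fin k → Fin j → ZMod 2) (v : Fin k) (g : Γ) :
    shift g (cvec π a v) = cvec π a (π g v) := by
  funext d i
  simp [shift, cvec, map_mul]

/-- Translation in the fibres by a given vector field. -/
def fibT (c : Fin k → NN Γ) (p : Fin k × NN Γ) : Fin k × NN Γ := (p.1, p.2 + c p.1)

omit [TopologicalSpace Γ] [DiscreteTopology Γ] [Countable Γ] in
lemma fibT_comm (a : Fin k → Fin j → ZMod 2) (g : LG Γ) (p : Fin k × NN Γ) :
    mact π g (fibT (cvec π a) p) = fibT (cvec π a) (mact π g p) := by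
  simp only [mact, fibT, shift_add, shift_cvec]
  rw [add_assoc]

omit [Group Γ] [TopologicalSpace Γ] [DiscreteTopology Γ] [Countable Γ] in
lemma continuous_fibT (c : Fin k → NN Γ) : Continuous (fibT c) := by
  apply Continuous.prodMk continuous_fst
  apply continuous_snd.add
  exact (continuous_of_discreteTopology (f := c)).comp continuous_fst

lemma fibT_pres (lam : Measure (LG Γ)) (h : IsRightHaar lam) (c : Fin k → NN Γ) :
    MeasurePreserving (fibT c) (mvol k lam) (mvol k lam) := by
  refine ⟨(continuous_fibT c).measurable, ?_⟩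
  ext E hE
  have hm := (continuous_fibT c).measurable
  rw [Measure.map_apply hm hE, mvol_apply lam h (hm hE), mvol_apply lam h hE]
  apply Finset.sum_congr rfl
  intro v _
  have h1 := LG.kap_add lam h (c v)
  have hm2 : Measurable (fun y : NN Γ => y + c v) := (continuous_add_const (c v)).measurable
  conv_rhs => rw [← h1]
  have hmE : MeasurableSet {y : NN Γ | (v, y) ∈ E} := measurable_prodMk_left hE
  rw [Measure.map_apply hm2 hmE]
  rfl

lemma comp_mem_microstates (hk : 0 < k) (lam : Measure (LG Γ)) (h : IsRightHaar lam)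
    (A : PmpAction (LG Γ)) (U : Set (LG Γ)) (δ : ℝ≥0∞) (O : Set (ProbabilityMeasure A.X))
    (φ : Fin k × NN Γ → A.X) (hφ : φ ∈ microstates (modSpace π hk lam h) A U δ O)
    (a : Fin k → Fin j → ZMod 2) :
    (fun p => φ (fibT (cvec π a) p)) ∈ microstates (modSpace π hk lam h) A U δ O := by
  obtain ⟨h1, h2, ν, h3, h4⟩ := hφ
  have hp := fibT_pres lam h (cvec π a)
  refine ⟨?_, ?_, ν, h3, ?_⟩
  · exact Measurable.comp (g := φ) h1 (continuous_fibT _).measurable
  · intro g hg
    refine lt_of_le_of_lt (le_of_eq ?_) (h2 g hg)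
    simp only [defect]
    congr 1
    have hd : {p : Fin k × NN Γ | (g, p) ∈ (modAction π).dom} = univ := by
      ext p; simp [modAction]
    show ∫⁻ p in {p : Fin k × NN Γ | (g, p) ∈ (modAction π).dom},
      edist (φ (fibT (cvec π a) (mact π g p))) (g • φ (fibT (cvec π a) p)) ∂(mvol k lam) =
      ∫⁻ p in {p : Fin k × NN Γ | (g, p) ∈ (modAction π).dom},
      edist (φ (mact π g p)) (g • φ p) ∂(mvol k lam)
    rw [hd, Measure.restrict_univ]
    have hF : Measurable (fun p : Fin k × NN Γ => edist (φ (mact π g p)) (g • φ p)) := by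
      have h5 : Measurable (fun p : Fin k × NN Γ => φ (mact π g p)) := by
        apply Measurable.comp (g := φ) h1
        exact ((continuous_mact π).comp (continuous_const.prodMk continuous_id)).measurable
      have h6 : Measurable (fun p : Fin k × NN Γ => g • φ p) :=
        (continuous_const_smul g).measurable.comp h1
      exact h5.edist h6
    rw [← hp.lintegral_comp hF]
    simp only [fibT_comm]
  · have h1' : Measurable (φ : Fin k × NN Γ → A.X) := h1
    have e1 : (mvol k lam).map (φ ∘ fibT (cvec π a)) = (mvol k lam).map φ := by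
      rw [← Measure.map_map h1' (continuous_fibT _).measurable, hp.map_eq]
    calc (ν : Measure A.X) = ((mvol k lam) univ)⁻¹ • (mvol k lam).map φ := h4
      _ = ((mvol k lam) univ)⁻¹ • (mvol k lam).map (φ ∘ fibT (cvec π a)) := by rw [e1]

end Pool.Agent.Helper99_LC
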