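import Mathlib

/-!
A Gilbert-Varshamov type bound.
-/

set_option autoImplicit false

open Finset

namespace Pool.Agent.Helper99_LC

open Classical in
/-- There is a large family of functions which pairwise differ on at least half of the points. -/
theorem exists_code (k q : ℕ) (Q : Type) [Fintype Q] (hQ : Fintype.card Q = q) (hq : 0 < q) :
    ∃ S : Finset (Fin k → Q),
      (∀ a ∈ S, ∀ b ∈ S, a ≠ b → k ≤ 2 * (univ.filter (fun v => a v ≠ b v)).card) ∧
      q ^ k ≤ S.card * (2 ^ k * q ^ (k / 2)) := by
  set P : Finset (Finset (Fin k → Q)) := univ.filter (fun S : Finset (Fin k → Q) =>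
    ∀ a ∈ S, ∀ b ∈ S, a ≠ b → k ≤ 2 * (univ.filter (fun v => a v ≠ b v)).card) with hP
  have hne : P.Nonempty := ⟨∅, by simp [hP]⟩
  obtain ⟨S, hS, hmax⟩ := exists_max_image P card hne
  have hS' : ∀ a ∈ S, ∀ b ∈ S, a ≠ b → k ≤ 2 * (univ.filter (fun v => a v ≠ b v)).card := by
    simpa [hP] using hS
  refine ⟨S, hS', ?_⟩
  have hball : ∀ a : Fin k → Q, (univ.filter (fun b : Fin k → Q =>
      2 * (univ.filter (fun v => b v ≠ a v)).card < k ∨ b = a)).card ≤ 2 ^ k * q ^ (k / 2) := by
    intro a
    have hsub : (univ.filter (fun b : Fin k → Q =>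
      2 * (univ.filter (fun v => b v ≠ a v)).card < k ∨ b = a)) ⊆
      ((univ : Finset (Finset (Fin k))).filter (fun T => T.card ≤ k / 2)).biUnion
        (fun T => Fintype.piFinset (fun v => if v ∈ T then (univ : Finset Q) else {a v})) := by
      intro b hb
      simp only [mem_filter, mem_univ, true_and, mem_biUnion, Fintype.mem_piFinset] at hb ⊢
      refine ⟨univ.filter (fun v => b v ≠ a v), ?_, ?_⟩
      · rcases hb with hb | rfl
        · omega
        · simp
      · intro v
        by_cases h : b v = a v
        · simp [h]
        · simp [h]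
    refine (card_le_card hsub).trans (card_biUnion_le.trans ?_)
    refine (sum_le_card_nsmul _ _ (q ^ (k / 2)) ?_).trans ?_
    · intro T hT
      rw [mem_filter] at hT
      rw [Fintype.card_piFinset]
      have : ∏ v : Fin k, (if v ∈ T then (univ : Finset Q) else {a v}).card = q ^ T.card := by
        have h1 : ∀ v : Fin k, (if v ∈ T then (univ : Finset Q) else {a v}).card =
            if v ∈ T then q else 1 := by
          intro v; split_ifs
          · rw [card_univ, hQ]
          · simp
        rw [prod_congr rfl (fun v _ => h1 v), prod_ite_mem, univ_inter, prod_const]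
      rw [this]
      exact Nat.pow_le_pow_right hq hT.2
    · rw [smul_eq_mul]
      apply Nat.mul_le_mul_right
      refine (card_filter_le _ _).trans ?_
      simp
  have hcov : (univ : Finset (Fin k → Q)) ⊆ S.biUnion (fun a => univ.filter
      (fun b : Fin k → Q => 2 * (univ.filter (fun v => b v ≠ a v)).card < k ∨ b = a)) := by
    intro b _
    by_contra hb
    simp only [mem_biUnion, mem_filter, mem_univ, true_and, not_exists, not_and, not_or,
      not_lt] at hb
    have hbS : b ∉ S := fun h => (hb b h).2 rfl
    have hins : insert b S ∈ P := by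
      rw [hP, mem_filter]
      refine ⟨mem_univ _, ?_⟩
      intro x hx y hy hxy
      rw [mem_insert] at hx hy
      rcases hx with rfl | hx <;> rcases hy with rfl | hy
      · exact absurd rfl hxy
      · exact (hb y hy).1
      · have h1 := (hb x hx).1
        have h2 : (univ.filter (fun v => x v ≠ y v)) = (univ.filter (fun v => y v ≠ x v)) := by
          ext v; simp [ne_comm]
        rw [h2]; exact h1
      · exact hS' x hx y hy hxy
    have h1 := hmax _ hins
    rw [card_insert_of_notMem hbS] at h1
    omega
  have h1 := card_le_card hcov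
  rw [card_univ, Fintype.card_fun, hQ, Fintype.card_fin] at h1
  refine h1.trans (card_biUnion_le.trans ?_)
  refine (sum_le_card_nsmul _ _ _ (fun a _ => hball a)).trans (le_of_eq ?_)
  rw [smul_eq_mul]

end Pool.Agent.Helper99_LC
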