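import Mathlib

/-!
Sofic entropy for actions of locally compact second countable groups.
-/

set_option autoImplicit false

open MeasureTheory Set Filter Topology
open scoped ENNReal Topology

namespace Pool.Agent.Helper99_LC

/-- A right Haar measure: right invariant, finite on compact sets, positive on nonempty open
sets (on a locally compact second countable group such a Borel measure is Radon). -/
structure IsRightHaar {G : Type} [Group G] [TopologicalSpace G] [MeasurableSpace G]
    (lam : Measure G) : Prop where
  right_inv : ∀ g : G, lam.map (fun x => x * g) = lam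
  finite_compact : ∀ K : Set G, IsCompact K → lam K < ∞
  pos_open : ∀ U : Set G, IsOpen U → U.Nonempty → 0 < lam U

/-- A local `G`-space: a partial continuous left action of `G` on `M`, given by an open domain
in `G × M` and a map which is only meaningful on this domain. -/
structure LocalAction (G M : Type) [Group G] [TopologicalSpace G] [TopologicalSpace M] where
  dom : Set (G × M)
  act : G → M → M
  isOpen_dom : IsOpen dom
  cont : ContinuousOn (fun z : G × M => act z.1 z.2) dom
  one_mem : ∀ p, ((1 : G), p) ∈ dom
  one_act : ∀ p, act 1 p = p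
  inv_mem : ∀ g p, (g, p) ∈ dom → (g⁻¹, act g p) ∈ dom
  inv_act : ∀ g p, (g, p) ∈ dom → act g⁻¹ (act g p) = p
  assoc_mem : ∀ g h p, (h, p) ∈ dom → ((g, act h p) ∈ dom ↔ (g * h, p) ∈ dom)
  assoc : ∀ g h p, (h, p) ∈ dom → (g * h, p) ∈ dom → act g (act h p) = act (g * h) p
  chart : ∀ p, ∃ U : Set G, IsOpen U ∧ (1 : G) ∈ U ∧ (∀ g ∈ U, (g, p) ∈ dom) ∧
    IsOpenEmbedding (fun g : U => act (g : G) p)

/-- `M[U]`: the points `p` such that `g.(h.p) = (gh).p` whenever `g, h, gh ∈ U`, and `g ↦ g.p`
is a homeomorphism from `U` onto an open neighbourhood of `p`. -/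
def LocalAction.good {G M : Type} [Group G] [TopologicalSpace G] [TopologicalSpace M]
    (A : LocalAction G M) (U : Set G) : Set M :=
  {p | (∀ g ∈ U, (g, p) ∈ A.dom) ∧
    (∀ g ∈ U, ∀ h ∈ U, g * h ∈ U → (g, A.act h p) ∈ A.dom ∧
      A.act g (A.act h p) = A.act (g * h) p) ∧
    IsOpenEmbedding (fun g : U => A.act (g : G) p) ∧ p ∈ (fun g => A.act g p) '' U}

/-- The canonical measure `vol` of a local `G`-space: near each point it is given, through a
chart `g ↦ g.p`, by the right Haar measure. -/
def LocalAction.IsVol {G M : Type} [Group G] [TopologicalSpace G] [MeasurableSpace G]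
    [TopologicalSpace M] [MeasurableSpace M]
    (A : LocalAction G M) (lam : Measure G) (vol : Measure M) : Prop :=
  ∀ p, ∃ U : Set G, IsOpen U ∧ (1 : G) ∈ U ∧ (∀ g ∈ U, (g, p) ∈ A.dom) ∧
    IsOpenEmbedding (fun g : U => A.act (g : G) p) ∧
    ∀ E : Set M, MeasurableSet E → E ⊆ (fun g => A.act g p) '' U →
      vol E = lam {g | g ∈ U ∧ A.act g p ∈ E}

/-- A locally compact second countable local `G`-space together with its canonical measure,
which is assumed to be finite and nonzero. -/
structure FinVolSpace (G : Type) [Group G] [TopologicalSpace G] [MeasurableSpace G]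
    (lam : Measure G) where
  carrier : Type
  top : TopologicalSpace carrier
  meas : MeasurableSpace carrier
  borel : BorelSpace carrier
  t2 : T2Space carrier
  lc : LocallyCompactSpace carrier
  sc : SecondCountableTopology carrier
  action : LocalAction G carrier
  vol : Measure carrier
  isVol : action.IsVol lam vol
  vol_ne_zero : vol univ ≠ 0
  vol_ne_top : vol univ ≠ ∞

attribute [instance] FinVolSpace.top FinVolSpace.meas FinVolSpace.borel FinVolSpace.t2
  FinVolSpace.lc FinVolSpace.sc

/-- A sofic approximation of `G`: a sequence `M i` of `(U i, ε i)`-sofic approximations with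
`U i` precompact open sets increasing to `G` and `ε i` decreasing to `0`. -/
structure SoficApprox (G : Type) [Group G] [TopologicalSpace G] [MeasurableSpace G]
    (lam : Measure G) where
  M : ℕ → FinVolSpace G lam
  U : ℕ → Set G
  ε : ℕ → ℝ≥0∞
  isOpen_U : ∀ i, IsOpen (U i)
  precompact : ∀ i, IsCompact (closure (U i))
  mono : Monotone U
  cover : ⋃ i, U i = univ
  anti : Antitone ε
  tendsto : Tendsto ε atTop (𝓝 0)
  sofic : ∀ i, (1 - ε i) * (M i).vol univ ≤ (M i).vol ((M i).action.good (U i))

/-- A probability measure preserving action, presented as a continuous action on a compact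
metric space with an invariant Borel probability measure. -/
structure PmpAction (G : Type) [Group G] [TopologicalSpace G] where
  X : Type
  metric : MetricSpace X
  compact : CompactSpace X
  meas : MeasurableSpace X
  borel : BorelSpace X
  action : MulAction G X
  cont : ContinuousSMul G X
  μ : ProbabilityMeasure X
  inv : ∀ g : G, (μ : Measure X).map (fun x => g • x) = (μ : Measure X)

attribute [instance] PmpAction.metric PmpAction.compact PmpAction.meas PmpAction.borel
  PmpAction.action PmpAction.cont

/-- Essential freeness: almost every point has trivial stabilizer. -/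
def PmpAction.EssFree {G : Type} [Group G] [TopologicalSpace G] (A : PmpAction G) : Prop :=
  ∀ᵐ x ∂(A.μ : Measure A.X), ∀ g : G, g ≠ 1 → g • x ≠ x

/-- Ergodicity: invariant Borel sets are null or conull. -/
def PmpAction.Ergodic {G : Type} [Group G] [TopologicalSpace G] (A : PmpAction G) : Prop :=
  ∀ E : Set A.X, MeasurableSet E → (∀ g : G, (fun x => g • x) ⁻¹' E = E) →
    (A.μ : Measure A.X) E = 0 ∨ (A.μ : Measure A.X) Eᶜ = 0

/-- Integrated distance of two maps with respect to normalised volume. -/
noncomputable def dist1 {G : Type} [Group G] [TopologicalSpace G] [MeasurableSpace G]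
    {lam : Measure G} (M : FinVolSpace G lam) {X : Type} [MetricSpace X]
    (φ ψ : M.carrier → X) : ℝ≥0∞ :=
  (M.vol univ)⁻¹ * ∫⁻ p, edist (φ p) (ψ p) ∂M.vol

/-- Integrated equivariance defect of a map at a group element. -/
noncomputable def defect {G : Type} [Group G] [TopologicalSpace G] [MeasurableSpace G]
    {lam : Measure G} (M : FinVolSpace G lam) (A : PmpAction G)
    (φ : M.carrier → A.X) (g : G) : ℝ≥0∞ :=
  (M.vol univ)⁻¹ * ∫⁻ p in {p | (g, p) ∈ M.action.dom},
    edist (φ (M.action.act g p)) (g • φ p) ∂M.vol

/-- The microstates: Borel maps from `M` to `X` which are `δ`-equivariant on `U` and push the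
normalised volume to a measure in the neighbourhood `O` of `μ`. -/
def microstates {G : Type} [Group G] [TopologicalSpace G] [MeasurableSpace G]
    {lam : Measure G} (M : FinVolSpace G lam) (A : PmpAction G) (U : Set G) (δ : ℝ≥0∞)
    (O : Set (ProbabilityMeasure A.X)) : Set (M.carrier → A.X) :=
  {φ | Measurable φ ∧ (∀ g ∈ U, defect M A φ g < δ) ∧
    ∃ ν ∈ O, (ν : Measure A.X) = (M.vol univ)⁻¹ • M.vol.map φ}

/-- Largest cardinality of an `ε`-separated family of microstates. -/
noncomputable def sepNumber {G : Type} [Group G] [TopologicalSpace G] [MeasurableSpace G]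
    {lam : Measure G} (M : FinVolSpace G lam) (A : PmpAction G) (U : Set G) (δ : ℝ≥0∞)
    (O : Set (ProbabilityMeasure A.X)) (ε : ℝ≥0∞) : ℝ≥0∞ :=
  ⨆ (S : Finset (M.carrier → A.X)) (_ : (S : Set (M.carrier → A.X)) ⊆ microstates M A U δ O)
    (_ : ∀ φ ∈ S, ∀ ψ ∈ S, φ ≠ ψ → ε ≤ dist1 M φ ψ), (S.card : ℝ≥0∞)

/-- The measure entropy of the action `A` with respect to the sofic approximation. -/
noncomputable def entropy {G : Type} [Group G] [TopologicalSpace G] [MeasurableSpace G]
    {lam : Measure G} (S : SoficApprox G lam) (A : PmpAction G) : EReal :=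
  ⨆ (ε : ℝ≥0∞) (_ : 0 < ε),
    ⨅ (U : Set G) (_ : IsOpen U) (_ : IsCompact (closure U)) (δ : ℝ≥0∞) (_ : 0 < δ)
      (O : Set (ProbabilityMeasure A.X)) (_ : O ∈ 𝓝 A.μ),
      limsup (fun i => ENNReal.log (sepNumber (S.M i) A U δ O ε) /
        (((S.M i).vol univ : ℝ≥0∞) : EReal)) atTop

/-- The base entropy: infimum of the entropies of the essentially free actions. -/
noncomputable def baseEntropy {G : Type} [Group G] [TopologicalSpace G] [MeasurableSpace G]
    {lam : Measure G} (S : SoficApprox G lam) : EReal :=
  ⨅ (A : PmpAction G) (_ : A.EssFree), entropy S A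

end Pool.Agent.Helper99_LC
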