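import Pool.Agent.Helper99_LC.SepEst
import Pool.Agent.Helper99_LC.Code

/-!
The entropy of a free action is `-∞` or `+∞`.
-/

set_option autoImplicit false

open MeasureTheory Set Filter Topology
open scoped ENNReal Topology

namespace Pool.Agent.Helper99_LC

variable {Γ : Type} [Group Γ] [TopologicalSpace Γ] [DiscreteTopology Γ] [Countable Γ]

lemma isOpen_setOf_lt {X : Type} [MetricSpace X] [MeasurableSpace X] [BorelSpace X]
    (μ : ProbabilityMeasure X) (W : Set X) (hW : IsOpen W) (r : ℝ≥0∞)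
    (h : r < (μ : Measure X) W) :
    {ν : ProbabilityMeasure X | r < (ν : Measure X) W} ∈ 𝓝 μ := by
  have h1 : Tendsto (id : ProbabilityMeasure X → ProbabilityMeasure X) (𝓝 μ) (𝓝 μ) := tendsto_id
  have h2 := ProbabilityMeasure.le_liminf_measure_open_of_tendsto h1 hW
  have h3 := eventually_lt_of_lt_liminf (h.trans_le h2)
  exact h3

lemma le_sepNumber {G : Type} [Group G] [TopologicalSpace G] [MeasurableSpace G]
    {lam : Measure G} (M : FinVolSpace G lam) (A : PmpAction G) (U : Set G) (δ : ℝ≥0∞)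
    (O : Set (ProbabilityMeasure A.X)) (ε : ℝ≥0∞) (hε : 0 < ε) {ι : Type} (T : Finset ι)
    (F : ι → M.carrier → A.X) (hF : ∀ a ∈ T, F a ∈ microstates M A U δ O)
    (hsep : ∀ a ∈ T, ∀ b ∈ T, a ≠ b → ε ≤ dist1 M (F a) (F b)) :
    (T.card : ℝ≥0∞) ≤ sepNumber M A U δ O ε := by
  classical
  have hinj : Set.InjOn F T := by
    intro a ha b hb hab
    by_contra hne
    have h1 := hsep a ha b hb hne
    rw [hab] at h1
    have h2 : dist1 M (F b) (F b) = 0 := by
      simp [dist1]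
    rw [h2] at h1
    exact absurd h1 (not_le.2 hε)
  have h1 : (T.image F).card = T.card := Finset.card_image_of_injOn hinj
  rw [← h1, sepNumber]
  refine le_iSup_of_le (T.image F) (le_iSup_of_le ?_ (le_iSup_of_le ?_ le_rfl))
  · intro ψ hψ
    rw [Finset.coe_image] at hψ
    obtain ⟨a, ha, rfl⟩ := hψ
    exact hF a ha
  · intro ψ hψ ψ' hψ' hne
    rw [Finset.mem_image] at hψ hψ'
    obtain ⟨a, ha, rfl⟩ := hψ
    obtain ⟨b, hb, rfl⟩ := hψ'
    exact hsep a ha b hb (fun hab => hne (by rw [hab]))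

lemma code_log (k j c : ℕ) (K0 R : ℝ) (hj : R * K0 ≤ Real.log 2 * (j / 2 - 1))
    (hc : (2 ^ j) ^ k ≤ c * (2 ^ k * (2 ^ j) ^ (k / 2))) :
    0 < c ∧ R * (k * K0) ≤ Real.log c := by
  have hc0 : 0 < c := by
    rcases Nat.eq_zero_or_pos c with h | h
    · rw [h, zero_mul] at hc
      have : 0 < ((2 : ℕ) ^ j) ^ k := by positivity
      omega
    · exact h
  refine ⟨hc0, ?_⟩
  have h1 : (((2 : ℝ) ^ j) ^ k) ≤ c * (2 ^ k * (2 ^ j) ^ (k / 2)) := by exact_mod_cast hc
  have hcr : (0 : ℝ) < c := by exact_mod_cast hc0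
  have h2 := Real.log_le_log (by positivity) h1
  rw [Real.log_mul hcr.ne' (by positivity), Real.log_mul (by positivity) (by positivity),
    Real.log_pow, Real.log_pow, Real.log_pow, Real.log_pow, Real.log_pow] at h2
  have h3 : ((k / 2 : ℕ) : ℝ) ≤ (k : ℝ) / 2 := Nat.cast_div_le
  have hl : 0 < Real.log 2 := Real.log_pos (by norm_num)
  have h4 : ((k / 2 : ℕ) : ℝ) * (j * Real.log 2) ≤ (k : ℝ) / 2 * (j * Real.log 2) := by
    gcongr
  have hk : (0 : ℝ) ≤ k := Nat.cast_nonneg k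
  have h5 : R * (k * K0) ≤ k * (Real.log 2 * (j / 2 - 1)) := by
    calc R * (k * K0) = k * (R * K0) := by ring
      _ ≤ _ := by gcongr
  nlinarith

theorem gap (lam : Measure (LG Γ)) (h : IsRightHaar lam) (S : SoficApprox (LG Γ) lam)
    (k : ℕ → ℕ) (hk : ∀ i, 0 < k i) (π : ∀ i, Γ →* Equiv.Perm (Fin (k i)))
    (hM : ∀ i, S.M i = modSpace (π i) (hk i) lam h) (A : PmpAction (LG Γ)) (hA : A.EssFree)
    (hbot : entropy S A ≠ ⊥) : entropy S A = ⊤ := by
  classical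
  have hK0 := LG.kap_univ_pos lam h
  have hK1 := LG.kap_univ_lt_top lam h
  set K0 := LG.kap lam univ with hK0def
  set K0r := K0.toReal with hK0r
  have hK0r_pos : 0 < K0r := ENNReal.toReal_pos hK0.ne' hK1.ne
  apply entropy_eq_top
  intro R
  obtain ⟨j, hj⟩ : ∃ j : ℕ, R * K0r ≤ Real.log 2 * (j / 2 - 1) := by
    have hl : 0 < Real.log 2 := Real.log_pos (by norm_num)
    obtain ⟨j, hj⟩ := exists_nat_ge (2 * (R * K0r / Real.log 2 + 1))
    refine ⟨j, ?_⟩
    have h1 : R * K0r / Real.log 2 ≤ j / 2 - 1 := by linarith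
    rw [div_le_iff₀ hl] at h1
    linarith
  obtain ⟨e, he, heW⟩ := exists_W A hA j (1 / 8) (by norm_num)
  obtain ⟨θ, hθ, hequi⟩ := exists_equi A (e / 4) (by linarith)
  set O₀ : Set (ProbabilityMeasure A.X) := {ν | 1 - 1 / 8 < (ν : Measure A.X) (Wc A j e)} with hO₀
  have hO₀n : O₀ ∈ 𝓝 A.μ := isOpen_setOf_lt A.μ (Wc A j e) (isOpen_Wc A j e) _ heW
  have heps : 0 < ENNReal.ofReal (e / 2) * (1 / 4) := by
    apply ENNReal.mul_pos
    · simpa using he
    · norm_num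
  refine ⟨ENNReal.ofReal (e / 2) * (1 / 4), heps, ?_⟩
  intro U hU hUc δ hδ O hO
  set C : ℝ≥0∞ := (ENNReal.ofReal θ)⁻¹ + (ENNReal.ofReal (e / 4))⁻¹ with hC
  have hCt : C ≠ ∞ := by
    rw [hC]
    apply ENNReal.add_ne_top.2
    constructor
    · apply ENNReal.inv_ne_top.2; simpa using hθ
    · apply ENNReal.inv_ne_top.2; simpa using he
  set δ₀ : ℝ≥0∞ := min δ ((8 * C)⁻¹) with hδ₀
  have hδ₀pos : 0 < δ₀ := by
    rw [hδ₀, lt_min_iff]
    refine ⟨hδ, ?_⟩
    rw [ENNReal.inv_pos]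
    exact ENNReal.mul_ne_top (by simp) hCt
  have hU' : IsOpen (U ∪ LG.cpt Γ) := hU.union LG.isOpen_cpt
  have hU'c : IsCompact (closure (U ∪ LG.cpt Γ)) := by
    rw [closure_union]
    exact hUc.union (LG.isCompact_cpt.closure)
  have hfreq := frequently_of_ne_bot S A hbot (U ∪ LG.cpt Γ) hU' hU'c δ₀ hδ₀pos (O ∩ O₀)
    (inter_mem hO hO₀n)
  refine hfreq.mono ?_
  intro i hi
  rw [hM i] at hi ⊢
  obtain ⟨φ, hφ⟩ := hi
  set Vol := mvol (k i) lam univ with hVol
  have hVol_eq : Vol = k i * K0 := mvol_univ lam h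
  have hVol0 : Vol ≠ 0 := by
    rw [hVol_eq]; exact mul_ne_zero (by exact_mod_cast (hk i).ne') hK0.ne'
  have hVolT : Vol ≠ ∞ := by
    rw [hVol_eq]; exact ENNReal.mul_ne_top (by simp) hK1.ne
  obtain ⟨hφm, hφd, ν, hνO, hνe⟩ := id hφ
  have hφm' : Measurable (φ : Fin (k i) × NN Γ → A.X) := hφm
  -- the defect bound
  have hD : ∀ n : NN Γ, ∫⁻ p : Fin (k i) × NN Γ, edist (φ (p.1, p.2 + n)) (nn n • φ p)
      ∂(mvol (k i) lam) ≤ δ₀ * Vol := by
    intro n
    have h1 := hφd (nn n) (Or.inr rfl)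
    have h2 : defect (modSpace (π i) (hk i) lam h) A φ (nn n) =
        Vol⁻¹ * ∫⁻ p : Fin (k i) × NN Γ, edist (φ (p.1, p.2 + n)) (nn n • φ p)
          ∂(mvol (k i) lam) := by
      have hd : {p : Fin (k i) × NN Γ | (nn n, p) ∈ (modAction (π i)).dom} = univ := by
        ext p; simp [modAction]
      show Vol⁻¹ * ∫⁻ p in {p : Fin (k i) × NN Γ | (nn n, p) ∈ (modAction (π i)).dom},
        edist (φ (mact (π i) (nn n) p)) (nn n • φ p) ∂(mvol (k i) lam) = _
      rw [hd, Measure.restrict_univ]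
      congr 1
      apply lintegral_congr
      intro p
      have : mact (π i) (nn n) p = (p.1, p.2 + n) := by
        simp [mact, nn, shift_one, add_comm]
      rw [this]
    rw [h2] at h1
    calc _ = Vol * (Vol⁻¹ * ∫⁻ p : Fin (k i) × NN Γ, edist (φ (p.1, p.2 + n)) (nn n • φ p)
          ∂(mvol (k i) lam)) := by
            rw [← mul_assoc, ENNReal.mul_inv_cancel hVol0 hVolT, one_mul]
      _ ≤ Vol * δ₀ := by gcongr
      _ = δ₀ * Vol := mul_comm _ _
  have hDs : (δ₀ * Vol) * ((ENNReal.ofReal θ)⁻¹ + (ENNReal.ofReal (e / 4))⁻¹) ≤ Vol / 8 := by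
    rw [← hC]
    calc δ₀ * Vol * C ≤ (8 * C)⁻¹ * Vol * C := by gcongr; exact min_le_right _ _
      _ = ((8 * C)⁻¹ * C) * Vol := by ring
      _ ≤ 8⁻¹ * Vol := by
          gcongr
          rw [ENNReal.mul_inv (by simp) (by simp), mul_assoc]
          calc (8 : ℝ≥0∞)⁻¹ * (C⁻¹ * C) ≤ 8⁻¹ * 1 := by
                gcongr; exact ENNReal.inv_mul_le_one C
            _ = 8⁻¹ := mul_one _
      _ = Vol / 8 := by rw [div_eq_mul_inv, mul_comm]
  have hW : mvol (k i) lam {p | φ p ∉ Wc A j e} ≤ Vol / 8 := by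
    have h1 : 1 - 1 / 8 < (ν : Measure A.X) (Wc A j e) := hνO.2
    have hWm : MeasurableSet (Wc A j e) := (isOpen_Wc A j e).measurableSet
    have h2 : (ν : Measure A.X) (Wc A j e)ᶜ ≤ 1 / 8 := by
      rw [prob_compl_eq_one_sub hWm]
      refine tsub_le_iff_left.2 ?_
      have h3 : (1 : ℝ≥0∞) ≤ (1 - 1 / 8) + 1 / 8 := le_tsub_add
      exact h3.trans (by gcongr)
    have h3 : (ν : Measure A.X) (Wc A j e)ᶜ = Vol⁻¹ * mvol (k i) lam {p | φ p ∉ Wc A j e} := by
      have h5 : ∀ ψ : Fin (k i) × NN Γ → A.X, Measurable ψ →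
          (ν : Measure A.X) = Vol⁻¹ • (mvol (k i) lam).map ψ →
          (ν : Measure A.X) (Wc A j e)ᶜ = Vol⁻¹ * mvol (k i) lam {p | ψ p ∉ Wc A j e} := by
        intro ψ hψ h4
        rw [h4, Measure.smul_apply, smul_eq_mul, Measure.map_apply hψ hWm.compl]
        rfl
      exact h5 φ hφm' hνe
    rw [h3] at h2
    calc _ = Vol * (Vol⁻¹ * mvol (k i) lam {p | φ p ∉ Wc A j e}) := by
            rw [← mul_assoc, ENNReal.mul_inv_cancel hVol0 hVolT, one_mul]
      _ ≤ Vol * (1 / 8) := by gcongr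
      _ = Vol / 8 := by rw [one_div, div_eq_mul_inv]
  -- the family
  obtain ⟨T, hT1, hT2⟩ := exists_code (k i) (2 ^ j) (Fin j → ZMod 2) (by simp) (by positivity)
  have hT1' : ∀ a ∈ T, ∀ b ∈ T, a ≠ b →
      ∃ S : Finset (Fin (k i)), k i ≤ 2 * S.card ∧ ∀ v ∈ S, a v ≠ b v :=
    fun a ha b hb hab => ⟨_, hT1 a ha b hb hab, by
      intro v hv
      simpa using hv⟩
  set F : (Fin (k i) → Fin j → ZMod 2) → (Fin (k i) × NN Γ → A.X) :=
    fun a p => φ (fibT (cvec (π i) a) p) with hF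
  have hsep : ∀ a ∈ T, ∀ b ∈ T, a ≠ b → ENNReal.ofReal (e / 2) * (1 / 4) ≤
      dist1 (modSpace (π i) (hk i) lam h) (F a) (F b) := by
    intro a ha b hb hab
    obtain ⟨S', hS1, hS2⟩ := hT1' a ha b hb hab
    have h1 := sep_est lam A φ h hφm' j e θ he hθ hequi (δ₀ * Vol) hD hDs hW
      (cvec (π i) a) (cvec (π i) b) S' hS1 (by
        intro v hv
        have h2 := hS2 v hv
        rw [Function.ne_iff] at h2
        obtain ⟨x, hx⟩ := h2
        refine ⟨x, x.2, ?_⟩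
        simp only [Pi.sub_apply, cvec, inv_one, map_one, Equiv.Perm.one_apply, x.2, dif_pos]
        intro h3
        exact hx (sub_eq_zero.1 h3).symm)
    show ENNReal.ofReal (e / 2) * (1 / 4) ≤ Vol⁻¹ * ∫⁻ p, edist (F a p) (F b p) ∂(mvol (k i) lam)
    calc ENNReal.ofReal (e / 2) * (1 / 4) = Vol⁻¹ * (ENNReal.ofReal (e / 2) * (Vol / 4)) := by
          rw [one_div, ENNReal.div_eq_inv_mul (a := Vol)]
          generalize ENNReal.ofReal (e / 2) = E2
          calc E2 * 4⁻¹ = (Vol⁻¹ * Vol) * (E2 * 4⁻¹) := by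
                rw [ENNReal.inv_mul_cancel hVol0 hVolT, one_mul]
            _ = _ := by ring
      _ ≤ _ := by gcongr
  have hsepN : (T.card : ℝ≥0∞) ≤ sepNumber (modSpace (π i) (hk i) lam h) A U δ O
      (ENNReal.ofReal (e / 2) * (1 / 4)) := by
    refine le_sepNumber (modSpace (π i) (hk i) lam h) A U δ O _ heps T F ?_ hsep
    intro a _
    exact microstates_mono _ A subset_union_left (min_le_left _ _) inter_subset_left
        (comp_mem_microstates (π i) (hk i) lam h A _ δ₀ _ φ hφ a)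
  obtain ⟨hc0, hlog⟩ := code_log (k i) j T.card K0r R hj hT2
  have hvol2 : (((modSpace (π i) (hk i) lam h).vol univ : ℝ≥0∞) : EReal) =
      ((k i * K0r : ℝ) : EReal) := by
    show ((Vol : ℝ≥0∞) : EReal) = _
    rw [hVol_eq]
    have h1 : (k i : ℝ≥0∞) * K0 = ENNReal.ofReal (k i * K0r) := by
      rw [ENNReal.ofReal_mul (by positivity), ENNReal.ofReal_natCast, hK0r,
        ENNReal.ofReal_toReal hK1.ne]
    rw [h1, EReal.coe_ennreal_ofReal, max_eq_left (by positivity)]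
  rw [EReal.le_div_iff_mul_le (vol_pos _) (vol_top _), hvol2]
  calc (R : EReal) * ((k i * K0r : ℝ) : EReal) = ((R * (k i * K0r) : ℝ) : EReal) := by
        rw [← EReal.coe_mul]
    _ ≤ ((Real.log T.card : ℝ) : EReal) := by exact_mod_cast hlog
    _ = ENNReal.log (T.card : ℝ≥0∞) := by
        rw [← ENNReal.ofReal_natCast, ENNReal.log_ofReal_of_pos (by exact_mod_cast hc0)]
    _ ≤ _ := ENNReal.log_monotone hsepN

end Pool.Agent.Helper99_LC
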