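import Pool.Agent.Helper99_LC.Defs

/-!
The group `(Z/2)^(Γ × ℕ) ⋊ Γ`.
-/

set_option autoImplicit false

open MeasureTheory Set Filter Topology
open scoped ENNReal Topology

namespace Pool.Agent.Helper99_LC

/-- The compact normal subgroup. -/
abbrev NN (Γ : Type) : Type := Γ → ℕ → ZMod 2

/-- The shift. -/
def shift {Γ : Type} [Group Γ] (g : Γ) (x : NN Γ) : NN Γ := fun d => x (g⁻¹ * d)

section shift

variable {Γ : Type} [Group Γ]

lemma shift_one (x : NN Γ) : shift 1 x = x := by funext d; simp [shift]

lemma shift_mul (g h : Γ) (x : NN Γ) : shift (g * h) x = shift g (shift h x) := by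
  funext d; simp [shift, mul_assoc]

lemma shift_add (g : Γ) (x y : NN Γ) : shift g (x + y) = shift g x + shift g y := rfl

lemma shift_zero (g : Γ) : shift g (0 : NN Γ) = 0 := rfl

lemma shift_neg (g : Γ) (x : NN Γ) : shift g (-x) = -shift g x := rfl

lemma continuous_shift (g : Γ) : Continuous (shift g : NN Γ → NN Γ) :=
  continuous_pi fun d => continuous_apply (g⁻¹ * d)

/-- The shift as a homeomorphism. -/
def shiftHomeo (g : Γ) : NN Γ ≃ₜ NN Γ where
  toFun := shift g
  invFun := shift g⁻¹
  left_inv x := by rw [← shift_mul, inv_mul_cancel, shift_one]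
  right_inv x := by rw [← shift_mul, mul_inv_cancel, shift_one]
  continuous_toFun := continuous_shift g
  continuous_invFun := continuous_shift g⁻¹

end shift

/-- The semidirect product group. -/
@[ext] structure LG (Γ : Type) where
  n : NN Γ
  g : Γ

namespace LG

variable {Γ : Type} [Group Γ]

instance : Mul (LG Γ) := ⟨fun a b => ⟨a.n + shift a.g b.n, a.g * b.g⟩⟩
instance : One (LG Γ) := ⟨⟨0, 1⟩⟩
instance : Inv (LG Γ) := ⟨fun a => ⟨-shift a.g⁻¹ a.n, a.g⁻¹⟩⟩

@[simp] lemma mul_n (a b : LG Γ) : (a * b).n = a.n + shift a.g b.n := rfl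
@[simp] lemma mul_g (a b : LG Γ) : (a * b).g = a.g * b.g := rfl
@[simp] lemma one_n : (1 : LG Γ).n = 0 := rfl
@[simp] lemma one_g : (1 : LG Γ).g = 1 := rfl
@[simp] lemma inv_n (a : LG Γ) : (a⁻¹).n = -shift a.g⁻¹ a.n := rfl
@[simp] lemma inv_g (a : LG Γ) : (a⁻¹).g = a.g⁻¹ := rfl

instance : Group (LG Γ) where
  mul_assoc a b c := by
    ext1
    · simp [shift_add, shift_mul, add_assoc]
    · simp [mul_assoc]
  one_mul a := by
    ext1
    · simp [shift_one]
    · simp
  mul_one a := by
    ext1
    · simp [shift_zero]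
    · simp
  inv_mul_cancel a := by
    ext1
    · simp
    · simp

/-- Underlying pair. -/
def toProd : LG Γ ≃ NN Γ × Γ where
  toFun a := (a.n, a.g)
  invFun z := ⟨z.1, z.2⟩
  left_inv _ := rfl
  right_inv _ := rfl

variable [TopologicalSpace Γ] [DiscreteTopology Γ]

instance : TopologicalSpace (LG Γ) := TopologicalSpace.induced toProd inferInstance

/-- The homeomorphism with the product. -/
def homeo : LG Γ ≃ₜ NN Γ × Γ := toProd.toHomeomorphOfIsInducing ⟨rfl⟩

lemma continuous_n : Continuous (fun a : LG Γ => a.n) := continuous_fst.comp homeo.continuous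
lemma continuous_g : Continuous (fun a : LG Γ => a.g) := continuous_snd.comp homeo.continuous

lemma continuous_mk' {X : Type*} [TopologicalSpace X] {f : X → NN Γ} {h : X → Γ}
    (hf : Continuous f) (hh : Continuous h) : Continuous (fun x => (⟨f x, h x⟩ : LG Γ)) :=
  homeo.symm.continuous.comp (hf.prodMk hh)

lemma continuous_shift2 : Continuous (fun z : Γ × NN Γ => shift z.1 z.2) := by
  apply continuous_pi
  intro d
  rw [continuous_iff_continuousAt]
  rintro ⟨g, x⟩
  have h1 : ∀ᶠ z : Γ × NN Γ in 𝓝 (g, x), z.1 = g := by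
    have : {g} ×ˢ (univ : Set (NN Γ)) ∈ 𝓝 (g, x) :=
      prod_mem_nhds ((isOpen_discrete _).mem_nhds rfl) univ_mem
    filter_upwards [this] with z hz
    exact hz.1
  have h2 : ContinuousAt (fun z : Γ × NN Γ => z.2 (g⁻¹ * d)) (g, x) :=
    ((continuous_apply _).comp continuous_snd).continuousAt
  refine h2.congr ?_
  filter_upwards [h1] with z hz
  simp [shift, hz]

instance : IsTopologicalGroup (LG Γ) where
  continuous_mul := by
    apply continuous_mk'
    · exact (continuous_n.comp continuous_fst).add
        (continuous_shift2.comp ((continuous_g.comp continuous_fst).prodMk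
          (continuous_n.comp continuous_snd)))
    · exact (continuous_g.comp continuous_fst).mul (continuous_g.comp continuous_snd)
  continuous_inv := by
    apply continuous_mk'
    · exact (continuous_shift2.comp ((continuous_inv.comp continuous_g).prodMk continuous_n)).neg
    · exact continuous_g.inv

instance : LocallyCompactSpace (LG Γ) := homeo.isClosedEmbedding.locallyCompactSpace
instance [Countable Γ] : SecondCountableTopology (LG Γ) := homeo.secondCountableTopology
instance : T2Space (LG Γ) := homeo.isEmbedding.t2Space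
instance : MeasurableSpace (LG Γ) := borel _
instance : BorelSpace (LG Γ) := ⟨rfl⟩

/-- The compact open subgroup. -/
def cpt (Γ : Type) [Group Γ] : Set (LG Γ) := {a | a.g = 1}

lemma isOpen_fiber (B : Set Γ) : IsOpen {a : LG Γ | a.g ∈ B} :=
  (isOpen_discrete B).preimage continuous_g

lemma isClosed_fiber (B : Set Γ) : IsClosed {a : LG Γ | a.g ∈ B} :=
  (isClosed_discrete B).preimage continuous_g

lemma isCompact_fiber {B : Set Γ} (hB : B.Finite) : IsCompact {a : LG Γ | a.g ∈ B} := by
  have h1 : IsCompact ((univ : Set (NN Γ)) ×ˢ B) := isCompact_univ.prod hB.isCompact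
  have h2 := h1.image homeo.symm.continuous
  convert h2 using 1
  ext a
  constructor
  · intro h; exact ⟨(a.n, a.g), ⟨mem_univ _, h⟩, rfl⟩
  · rintro ⟨z, hz, rfl⟩; exact hz.2

lemma isOpen_cpt : IsOpen (cpt Γ) := isOpen_fiber {1}

lemma isCompact_cpt : IsCompact (cpt Γ) := isCompact_fiber (finite_singleton 1)

lemma noncompact [Infinite Γ] : NoncompactSpace (LG Γ) := by
  refine ⟨fun h => ?_⟩
  have h1 := h.image (continuous_g (Γ := Γ))
  have h2 : (fun a : LG Γ => a.g) '' univ = univ := by
    ext g; simp only [image_univ, mem_range, mem_univ, iff_true]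
    exact ⟨⟨0, g⟩, rfl⟩
  rw [h2] at h1
  exact infinite_univ (h1.finite_of_discrete)

/-- The Haar measure transported to `NN Γ`. -/
noncomputable def kap (lam : Measure (LG Γ)) : Measure (NN Γ) :=
  (lam.restrict (cpt Γ)).map (fun a => a.n)

instance : MeasurableSpace (NN Γ) := MeasurableSpace.pi

section
variable [Countable Γ]

lemma measurable_n : Measurable (fun a : LG Γ => a.n) := continuous_n.measurable

lemma kap_apply (lam : Measure (LG Γ)) {E : Set (NN Γ)} (hE : MeasurableSet E) :
    kap lam E = lam {a | a.g = 1 ∧ a.n ∈ E} := by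
  rw [kap, Measure.map_apply measurable_n hE,
    Measure.restrict_apply (measurable_n hE)]
  congr 1
  ext a
  simp only [cpt, mem_inter_iff, mem_preimage, mem_setOf_eq]
  exact and_comm

lemma kap_add (lam : Measure (LG Γ)) (h : IsRightHaar lam) (x : NN Γ) :
    (kap lam).map (fun y => y + x) = kap lam := by
  ext E hE
  have hm : Measurable (fun y : NN Γ => y + x) := (continuous_add_right x).measurable
  rw [Measure.map_apply hm hE, kap_apply lam (hm hE), kap_apply lam hE]
  have hm2 : Measurable (fun a : LG Γ => a * ⟨x, 1⟩) := (continuous_mul_right _).measurable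
  have h1 := h.right_inv ⟨x, 1⟩
  conv_rhs => rw [← h1]
  rw [Measure.map_apply hm2]
  · congr 1
    ext a
    simp only [mem_preimage, mem_setOf_eq, mul_g, mul_n, mul_one]
    constructor
    · rintro ⟨h2, h3⟩
      refine ⟨h2, ?_⟩
      rw [h2, shift_one]; exact h3
    · rintro ⟨h2, h3⟩
      refine ⟨h2, ?_⟩
      rw [h2, shift_one] at h3; exact h3
  · exact (isOpen_cpt.measurableSet).inter (measurable_n hE)

lemma kap_univ_lt_top (lam : Measure (LG Γ)) (h : IsRightHaar lam) : kap lam univ < ∞ := by
  rw [kap_apply lam MeasurableSet.univ]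
  refine (measure_mono ?_).trans_lt (h.finite_compact _ isCompact_cpt)
  intro a ha; exact ha.1

lemma kap_univ_pos (lam : Measure (LG Γ)) (h : IsRightHaar lam) : 0 < kap lam univ := by
  rw [kap_apply lam MeasurableSet.univ]
  refine (h.pos_open (cpt Γ) isOpen_cpt ⟨1, rfl⟩).trans_le (measure_mono ?_)
  intro a ha; exact ⟨ha, mem_univ _⟩

end

end LG

end Pool.Agent.Helper99_LC
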