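import Pool.Agent.Helper99_LC.NegAct

/-!
The sofic approximation and the main theorem.
-/

set_option autoImplicit false

open MeasureTheory Set Filter Topology
open scoped ENNReal Topology

namespace Pool.Agent.Helper99_LC

/-- Permutation groups with the discrete topology. -/
def PQ (n : ℕ) : Type := Equiv.Perm (Fin n)

instance (n : ℕ) : Group (PQ n) := inferInstanceAs (Group (Equiv.Perm (Fin n)))
instance (n : ℕ) : Finite (PQ n) := inferInstanceAs (Finite (Equiv.Perm (Fin n)))
instance (n : ℕ) : TopologicalSpace (PQ n) := ⊥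
instance (n : ℕ) : DiscreteTopology (PQ n) := ⟨rfl⟩

theorem main_thm (lam : Measure (LG F8)) (h : IsRightHaar lam) :
    ∃ S : SoficApprox (LG F8) lam,
      (∃ A : PmpAction (LG F8), A.EssFree ∧ A.Ergodic ∧ entropy S A = ⊥) ∧
      ∀ A : PmpAction (LG F8), A.EssFree → entropy S A = ⊥ ∨ entropy S A = ⊤ := by
  obtain ⟨e, he⟩ := exists_surjective_nat F8
  set B : ℕ → Finset F8 := fun i => insert 1 ((Finset.range i).image e) with hB
  have hB1 : ∀ i, (1 : F8) ∈ B i := fun i => Finset.mem_insert_self _ _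
  have hBmono : ∀ i j, i ≤ j → B i ⊆ B j := by
    intro i j hij
    apply Finset.insert_subset_insert
    apply Finset.image_subset_image
    exact Finset.range_mono hij
  have hBcov : ∀ w, ∃ i, w ∈ B i := by
    intro w
    obtain ⟨n, rfl⟩ := he w
    exact ⟨n + 1, Finset.mem_insert_of_mem (Finset.mem_image_of_mem _
      (Finset.mem_range.2 (Nat.lt_succ_self n)))⟩
  set W : ℕ → Finset F8 := fun i => (B i ×ˢ B i).image (fun z => z.1⁻¹ * z.2) with hW
  set F : ℕ → Finset F8 := fun i => (W i).filter (fun w => w ≠ 1) with hF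
  set K : ℕ → ℕ := fun i => (i + 1) * ((B i).card * (B i).card) with hK
  choose m σ hm hfix hcut using fun i => exists_good_perms (F i)
    (fun w hw => (Finset.mem_filter.1 hw).2) (K i)
  have hk : ∀ i, 0 < 300 * m i := fun i => Nat.mul_pos (by norm_num) (hm i)
  have hsofic : ∀ i, (1 - ((i + 1 : ℕ) : ℝ≥0∞)⁻¹) * mvol (300 * m i) lam univ ≤
      mvol (300 * m i) lam ((modAction (FreeGroup.lift (σ i))).good
        {a | a.g ∈ (B i : Set F8)}) := by
    intro i
    apply good_vol (FreeGroup.lift (σ i)) (B i) (hB1 i) lam h (i + 1) (Nat.succ_pos i) (hk i)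
    intro w hw hw1
    exact hfix i w (Finset.mem_filter.2 ⟨hw, hw1⟩)
  set S : SoficApprox (LG F8) lam :=
    { M := fun i => modSpace (FreeGroup.lift (σ i)) (hk i) lam h
      U := fun i => {a | a.g ∈ (B i : Set F8)}
      ε := fun i => ((i + 1 : ℕ) : ℝ≥0∞)⁻¹
      isOpen_U := fun i => LG.isOpen_fiber _
      precompact := fun i => by
        rw [(LG.isClosed_fiber _).closure_eq]
        exact LG.isCompact_fiber (Finset.finite_toSet _)
      mono := fun i j hij a ha => hBmono i j hij ha
      cover := by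
        rw [eq_univ_iff_forall]
        intro a
        obtain ⟨i, hi⟩ := hBcov a.g
        exact mem_iUnion.2 ⟨i, hi⟩
      anti := fun i j hij => by
        apply ENNReal.inv_le_inv.2
        exact_mod_cast Nat.succ_le_succ hij
      tendsto := (tendsto_add_atTop_iff_nat (f := fun n : ℕ => ((n : ℕ) : ℝ≥0∞)⁻¹) 1).2
        ENNReal.tendsto_inv_nat_nhds_zero
      sofic := hsofic } with hS
  refine ⟨S, ⟨A0 (Q := fun i => PQ (300 * m i)) (fun i => FreeGroup.lift (σ i)), ?_,
    A0_ergodic _, ?_⟩, ?_⟩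
  · apply A0_free
    intro w hw
    by_contra hne
    obtain ⟨i, hi⟩ := hBcov w
    have h1 : w ∈ B (i + 1) := hBmono i (i + 1) (Nat.le_succ i) hi
    have h2 : w ∈ F (i + 1) := by
      rw [hF]
      refine Finset.mem_filter.2 ⟨Finset.mem_image.2 ⟨(1, w), ?_, by simp⟩, hne⟩
      exact Finset.mem_product.2 ⟨hB1 _, h1⟩
    have h3 := hfix (i + 1) w h2
    have h4 : FreeGroup.lift (σ (i + 1)) w = 1 := hw (i + 1)
    have h5 : (Finset.univ.filter (fun v => FreeGroup.lift (σ (i + 1)) w v = v)).card =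
        300 * m (i + 1) := by
      rw [h4]; simp
    rw [h5] at h3
    have h6 : 0 < (B (i + 1)).card := Finset.card_pos.2 ⟨1, hB1 _⟩
    have h7 : 2 ≤ K (i + 1) := by
      show 2 ≤ (i + 1 + 1) * ((B (i + 1)).card * (B (i + 1)).card)
      have : 0 < (B (i + 1)).card * (B (i + 1)).card := Nat.mul_pos h6 h6
      nlinarith
    have h8 := hk (i + 1)
    nlinarith
  · exact entropy_bot_of_sgn lam h S m hm σ hcut hk (fun i => rfl) _
      (sgn0 (Q := fun i => PQ (300 * m i)) (fun i => FreeGroup.lift (σ i)))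
      (sgn0_cont _) (sgn0_nn _) (sgn0_gen _)
  · intro A hA
    by_cases hb : entropy S A = ⊥
    · left; exact hb
    · right
      exact gap lam h S (fun i => 300 * m i) hk (fun i => FreeGroup.lift (σ i))
        (fun i => rfl) A hA hb

end Pool.Agent.Helper99_LC
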