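import Pool.Agent.Helper99_LC.Grp

/-!
The model spaces `V × N` and their canonical measures.
-/

set_option autoImplicit false

open MeasureTheory Set Filter Topology
open scoped ENNReal Topology

namespace Pool.Agent.Helper99_LC

variable {Γ : Type} [Group Γ] [TopologicalSpace Γ] [DiscreteTopology Γ] [Countable Γ]
  {k : ℕ} (π : Γ →* Equiv.Perm (Fin k))

/-- The action map. -/
def mact (a : LG Γ) (p : Fin k × NN Γ) : Fin k × NN Γ := (π a.g p.1, a.n + shift a.g p.2)

omit [TopologicalSpace Γ] [DiscreteTopology Γ] [Countable Γ] in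
lemma mact_one (p : Fin k × NN Γ) : mact π 1 p = p := by
  simp [mact, shift_one]

omit [TopologicalSpace Γ] [DiscreteTopology Γ] [Countable Γ] in
lemma mact_mul (a b : LG Γ) (p : Fin k × NN Γ) : mact π (a * b) p = mact π a (mact π b p) := by
  simp [mact, shift_mul, shift_add, add_assoc]

omit [Countable Γ] in
lemma continuous_mact : Continuous (fun z : LG Γ × (Fin k × NN Γ) => mact π z.1 z.2) := by
  apply Continuous.prodMk
  · have h : Continuous (fun z : Γ × Fin k => π z.1 z.2) := continuous_of_discreteTopology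
    exact h.comp ((LG.continuous_g.comp continuous_fst).prodMk
      (continuous_fst.comp continuous_snd))
  · exact (LG.continuous_n.comp continuous_fst).add (LG.continuous_shift2.comp
      ((LG.continuous_g.comp continuous_fst).prodMk (continuous_snd.comp continuous_snd)))

omit [Countable Γ] in
lemma openEmb (B : Set Γ) (p : Fin k × NN Γ) (hB : InjOn (fun g => π g p.1) B) :
    IsOpenEmbedding (fun a : {a : LG Γ | a.g ∈ B} => mact π (a : LG Γ) p) := by
  apply IsOpenEmbedding.of_continuous_injective_isOpenMap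
  · exact (continuous_mact π).comp (continuous_subtype_val.prodMk continuous_const)
  · rintro ⟨a, ha⟩ ⟨b, hb⟩ h
    simp only [mact, Prod.mk.injEq] at h
    have h1 : a.g = b.g := hB ha hb h.1
    have h2 : a.n = b.n := by
      have := h.2
      rw [h1] at this
      exact add_right_cancel this
    exact Subtype.ext (LG.ext h2 h1)
  · intro W hW
    obtain ⟨W', hW', rfl⟩ := hW
    have : (fun a : {a : LG Γ | a.g ∈ B} => mact π (a : LG Γ) p) '' (Subtype.val ⁻¹' W') =
        ⋃ g ∈ B, ({π g p.1} : Set (Fin k)) ×ˢ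
          ((fun n => n + shift g p.2) '' {n : NN Γ | (⟨n, g⟩ : LG Γ) ∈ W'}) := by
      ext ⟨v, y⟩
      simp only [mem_image, mem_preimage, Subtype.exists, mem_iUnion, mem_prod, mem_singleton_iff]
      constructor
      · rintro ⟨a, ha, haW, h⟩
        simp only [mact, Prod.mk.injEq] at h
        exact ⟨a.g, ha, h.1.symm, a.n, haW, h.2⟩
      · rintro ⟨g, hg, h1, n, hn, h2⟩
        exact ⟨⟨n, g⟩, hg, hn, by simp only [mact]; exact Prod.ext h1.symm h2⟩
    rw [this]
    apply isOpen_biUnion
    intro g _
    apply (isOpen_discrete _).prod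
    have h1 : IsOpen {n : NN Γ | (⟨n, g⟩ : LG Γ) ∈ W'} :=
      hW'.preimage (LG.continuous_mk' continuous_id continuous_const)
    exact (Homeomorph.addRight (shift g p.2)).isOpenMap _ h1

/-- The local action on the model space (it is a global action). -/
def modAction : LocalAction (LG Γ) (Fin k × NN Γ) where
  dom := univ
  act := mact π
  isOpen_dom := isOpen_univ
  cont := (continuous_mact π).continuousOn
  one_mem _ := mem_univ _
  one_act := mact_one π
  inv_mem _ _ _ := mem_univ _
  inv_act g p _ := by rw [← mact_mul, inv_mul_cancel, mact_one]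
  assoc_mem _ _ _ _ := by simp
  assoc g h p _ _ := (mact_mul π g h p).symm
  chart p := ⟨{a | a.g ∈ ({1} : Set Γ)}, LG.isOpen_fiber {1}, rfl, fun _ _ => mem_univ _,
    openEmb π {1} p (injOn_singleton _ _)⟩

/-- The canonical measure of the model space. -/
noncomputable def mvol (k : ℕ) (lam : Measure (LG Γ)) : Measure (Fin k × NN Γ) :=
  (Measure.count : Measure (Fin k)).prod (LG.kap lam)

lemma kap_sfinite (lam : Measure (LG Γ)) (h : IsRightHaar lam) : IsFiniteMeasure (LG.kap lam) :=
  ⟨LG.kap_univ_lt_top lam h⟩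

lemma mvol_apply (lam : Measure (LG Γ)) (h : IsRightHaar lam) {E : Set (Fin k × NN Γ)}
    (hE : MeasurableSet E) : mvol k lam E = ∑ v, LG.kap lam {y | (v, y) ∈ E} := by
  haveI := kap_sfinite lam h
  rw [mvol, Measure.prod_apply hE, lintegral_count, tsum_fintype]
  rfl

lemma mvol_univ (lam : Measure (LG Γ)) (h : IsRightHaar lam) :
    mvol k lam univ = k * LG.kap lam univ := by
  rw [mvol_apply lam h MeasurableSet.univ]
  simp

lemma mod_isVol (lam : Measure (LG Γ)) (h : IsRightHaar lam) :
    (modAction π).IsVol lam (mvol k lam) := by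
  intro p
  refine ⟨{a | a.g ∈ ({1} : Set Γ)}, LG.isOpen_fiber {1}, rfl, fun _ _ => mem_univ _,
    openEmb π {1} p (injOn_singleton _ _), ?_⟩
  intro E hE hsub
  have hsub' : ∀ z ∈ E, z.1 = p.1 := by
    intro z hz
    obtain ⟨a, ha, rfl⟩ := hsub hz
    have ha' : a.g = 1 := ha
    show π a.g p.1 = p.1
    rw [ha', map_one]; rfl
  have hEm : ∀ v, MeasurableSet {y : NN Γ | (v, y) ∈ E} := fun v =>
    measurable_prodMk_left hE
  rw [mvol_apply lam h hE, Finset.sum_eq_single p.1]
  · have h1 := LG.kap_add lam h p.2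
    conv_lhs => rw [← h1]
    have hm : Measurable (fun y : NN Γ => y + p.2) := (continuous_add_const p.2).measurable
    rw [Measure.map_apply hm (hEm _), LG.kap_apply lam (hm (hEm _))]
    congr 1
    ext a
    simp only [mem_preimage, mem_ofPred_eq, mem_singleton_iff]
    constructor
    · rintro ⟨h2, h3⟩
      refine ⟨h2, ?_⟩
      show mact π a p ∈ E
      rw [mact, h2, shift_one, map_one]; exact h3
    · rintro ⟨h2, h3⟩
      refine ⟨h2, ?_⟩
      have h3' : mact π a p ∈ E := h3
      rw [mact, h2, shift_one, map_one] at h3'; exact h3'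
  · intro v _ hv
    have : {y : NN Γ | (v, y) ∈ E} = ∅ := by
      ext y; simp only [mem_ofPred_eq, mem_empty_iff_false, iff_false]
      intro hy; exact hv (hsub' _ hy)
    rw [this]; simp
  · intro hh; exact absurd (Finset.mem_univ _) hh

/-- The model space with its measure. -/
noncomputable def modSpace (hk : 0 < k) (lam : Measure (LG Γ)) (h : IsRightHaar lam) :
    FinVolSpace (LG Γ) lam where
  carrier := Fin k × NN Γ
  top := inferInstance
  meas := inferInstance
  borel := inferInstance
  t2 := inferInstance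
  lc := inferInstance
  sc := inferInstance
  action := modAction π
  vol := mvol k lam
  isVol := mod_isVol π lam h
  vol_ne_zero := by
    rw [mvol_univ lam h]
    exact mul_ne_zero (by exact_mod_cast hk.ne') (LG.kap_univ_pos lam h).ne'
  vol_ne_top := by
    rw [mvol_univ lam h]
    exact ENNReal.mul_ne_top (by simp) (LG.kap_univ_lt_top lam h).ne

omit [Countable Γ] in
lemma good_of_injOn (B : Set Γ) (h1 : (1 : Γ) ∈ B) (p : Fin k × NN Γ)
    (hB : InjOn (fun g => π g p.1) B) : p ∈ (modAction π).good {a | a.g ∈ B} := by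
  refine ⟨fun _ _ => mem_univ _, fun g _ h _ _ => ⟨mem_univ _, (mact_mul π g h p).symm⟩,
    openEmb π B p hB, ⟨1, h1, mact_one π p⟩⟩

lemma good_vol (B : Finset Γ) (h1 : (1 : Γ) ∈ B) (lam : Measure (LG Γ)) (h : IsRightHaar lam)
    (K : ℕ) (hK : 0 < K) [DecidableEq Γ] (hk : 0 < k)
    (hfix : ∀ w ∈ (B ×ˢ B).image (fun z => z.1⁻¹ * z.2), w ≠ 1 →
      K * (B.card * B.card) * (Finset.univ.filter (fun v => π w v = v)).card ≤ k) :
    (1 - (K : ℝ≥0∞)⁻¹) * mvol k lam univ ≤
      mvol k lam ((modAction π).good {a | a.g ∈ (B : Set Γ)}) := by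
  classical
  set bad : Finset (Fin k) := ((B ×ˢ B).filter (fun z => z.1 ≠ z.2)).biUnion
    (fun z => Finset.univ.filter (fun v => π (z.1⁻¹ * z.2) v = v)) with hbad
  have hcard : K * bad.card ≤ k := by
    have hpos : 0 < B.card * B.card := by
      have : 0 < B.card := Finset.card_pos.2 ⟨1, h1⟩
      positivity
    have h2 : K * (B.card * B.card) * bad.card ≤ (B.card * B.card) * k := by
      calc K * (B.card * B.card) * bad.card ≤ K * (B.card * B.card) *
          ∑ z ∈ (B ×ˢ B).filter (fun z => z.1 ≠ z.2),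
            (Finset.univ.filter (fun v => π (z.1⁻¹ * z.2) v = v)).card :=
            Nat.mul_le_mul_left _ Finset.card_biUnion_le
        _ = ∑ z ∈ (B ×ˢ B).filter (fun z => z.1 ≠ z.2), K * (B.card * B.card) *
            (Finset.univ.filter (fun v => π (z.1⁻¹ * z.2) v = v)).card := Finset.mul_sum _ _ _
        _ ≤ ((B ×ˢ B).filter (fun z => z.1 ≠ z.2)).card • k := by
            apply Finset.sum_le_card_nsmul
            intro z hz
            rw [Finset.mem_filter] at hz
            apply hfix
            · exact Finset.mem_image.2 ⟨z, hz.1, rfl⟩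
            · intro he
              exact hz.2 (inv_mul_eq_one.1 he)
        _ ≤ _ := by
            rw [smul_eq_mul]
            apply Nat.mul_le_mul_right
            refine (Finset.card_filter_le _ _).trans ?_
            rw [Finset.card_product]
    have h3 : (B.card * B.card) * (K * bad.card) ≤ (B.card * B.card) * k := by
      calc _ = K * (B.card * B.card) * bad.card := by ring
        _ ≤ _ := h2
    exact Nat.le_of_mul_le_mul_left h3 hpos
  have hsub : (((badᶜ : Finset (Fin k)) : Set (Fin k)) ×ˢ (univ : Set (NN Γ))) ⊆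
      (modAction π).good {a | a.g ∈ (B : Set Γ)} := by
    rintro p ⟨hp, -⟩
    apply good_of_injOn π (B : Set Γ) h1 p
    intro g hg g' hg' he
    by_contra hne
    simp only [Finset.coe_compl, mem_compl_iff, Finset.mem_coe, hbad, Finset.mem_biUnion,
      Finset.mem_filter, Finset.mem_product, Finset.mem_univ, true_and, not_exists, not_and] at hp
    have he' : π g p.1 = π g' p.1 := he
    have he2 : π (g'⁻¹ * g) p.1 = p.1 := by
      rw [map_mul, map_inv, Equiv.Perm.mul_apply, he']; simp
    exact hp (g', g) ⟨⟨hg', hg⟩, fun h => hne (Eq.symm h)⟩ he2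
  refine le_trans ?_ (measure_mono hsub)
  have hm : MeasurableSet (((badᶜ : Finset (Fin k)) : Set (Fin k)) ×ˢ (univ : Set (NN Γ))) :=
    (Finset.measurableSet _).prod MeasurableSet.univ
  haveI := kap_sfinite lam h
  rw [mvol_univ lam h]
  have h5 : mvol k lam (((badᶜ : Finset (Fin k)) : Set (Fin k)) ×ˢ (univ : Set (NN Γ))) =
      ((badᶜ : Finset (Fin k)).card : ℝ≥0∞) * LG.kap lam univ := by
    rw [mvol, Measure.prod_prod, Measure.count_apply_finset]
  rw [h5, ← mul_assoc]
  gcongr
  have h6 : ((badᶜ : Finset (Fin k)).card : ℝ≥0∞) = (k : ℝ≥0∞) - bad.card := by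
    rw [Finset.card_compl, Fintype.card_fin]
    push_cast
    rfl
  rw [h6, ENNReal.sub_mul (by simp), one_mul]
  apply tsub_le_tsub_left
  have h7 : ((K * bad.card : ℕ) : ℝ≥0∞) ≤ (k : ℝ≥0∞) := by exact_mod_cast hcard
  push_cast at h7
  have hK0 : (K : ℝ≥0∞) ≠ 0 := by exact_mod_cast hK.ne'
  calc (bad.card : ℝ≥0∞) = (K : ℝ≥0∞)⁻¹ * (K * bad.card) := by
        rw [← mul_assoc, ENNReal.inv_mul_cancel hK0 (by simp), one_mul]
    _ ≤ (K : ℝ≥0∞)⁻¹ * k := by gcongr

end Pool.Agent.Helper99_LC
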