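import Pool.Agent.Helper99_LC.NegEnt

/-!
A free ergodic action on `N × H` with `H` a closure of the free group in a profinite group.
-/

set_option autoImplicit false

open MeasureTheory Set Filter Topology
open scoped ENNReal Topology

namespace Pool.Agent.Helper99_LC

/-- Package a continuous action on a compact metrizable space. -/
noncomputable def mkPmp {G : Type} [Group G] [TopologicalSpace G] (X : Type)
    [TopologicalSpace X] [CompactSpace X] [T2Space X] [SecondCountableTopology X]
    [MeasurableSpace X] [BorelSpace X] [MulAction G X] [ContinuousSMul G X]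
    (μ : Measure X) [IsProbabilityMeasure μ] (inv : ∀ g : G, μ.map (fun x => g • x) = μ) :
    PmpAction G where
  X := X
  metric :=
    letI := TopologicalSpace.metrizableSpace_of_t3_secondCountable X
    TopologicalSpace.metrizableSpaceMetric X
  compact := ‹CompactSpace X›
  meas := inferInstance
  borel := ‹BorelSpace X›
  action := inferInstance
  cont := ‹ContinuousSMul G X›
  μ := ⟨μ, inferInstance⟩
  inv := inv

section act

variable {Q : ℕ → Type} [∀ i, Group (Q i)] [∀ i, TopologicalSpace (Q i)]
  [∀ i, DiscreteTopology (Q i)] [∀ i, Finite (Q i)] (r : ∀ i, F8 →* Q i)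

/-- The homomorphism into the profinite group. -/
def rho : F8 →* (∀ i, Q i) × Multiplicative (ZMod 2) :=
  (MonoidHom.pi r).prod (FreeGroup.lift (fun _ => Multiplicative.ofAdd (1 : ZMod 2)))

/-- The closure of the image. -/
def HH : Subgroup ((∀ i, Q i) × Multiplicative (ZMod 2)) := (rho r).range.topologicalClosure

lemma rho_mem (w : F8) : rho r w ∈ HH r :=
  Subgroup.le_topologicalClosure _ ⟨w, rfl⟩

/-- The homomorphism into the closure. -/
def rho' : F8 →* HH r := (rho r).codRestrict (HH r) (rho_mem r)

lemma dense_rho' : Dense (range (rho' r)) := by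
  have h : (Subtype.val '' (range (rho' r)) : Set ((∀ i, Q i) × Multiplicative (ZMod 2))) =
      ((rho r).range : Set ((∀ i, Q i) × Multiplicative (ZMod 2))) := by
    ext x
    constructor
    · rintro ⟨_, ⟨w, rfl⟩, rfl⟩; exact ⟨w, rfl⟩
    · rintro ⟨w, hw⟩; exact ⟨rho' r w, ⟨w, rfl⟩, hw⟩
  rw [dense_iff_closure_eq]
  ext x
  simp only [mem_univ, iff_true]
  rw [closure_subtype, h]
  exact x.2

instance : CompactSpace (HH r) :=
  isCompact_iff_compactSpace.1 (Subgroup.isClosed_topologicalClosure (rho r).range).isCompact

instance : SecondCountableTopology (Multiplicative (ZMod 2)) :=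
  inferInstanceAs (SecondCountableTopology (ZMod 2))

instance : SecondCountableTopology (∀ i, Q i) := inferInstance

instance : SecondCountableTopology (HH r) :=
  TopologicalSpace.Subtype.secondCountableTopology _

instance : MeasurableSpace (HH r) := borel _
instance : BorelSpace (HH r) := ⟨rfl⟩

/-- Haar probability measure on the closure. -/
noncomputable def muH : Measure (HH r) :=
  Measure.haarMeasure (⊤ : TopologicalSpace.PositiveCompacts (HH r))

instance : IsProbabilityMeasure (muH r) :=
  ⟨Measure.haarMeasure_self (K₀ := (⊤ : TopologicalSpace.PositiveCompacts (HH r)))⟩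

/-- Haar probability measure on the compact group. -/
noncomputable def muN : Measure (NN F8) :=
  Measure.addHaarMeasure (⊤ : TopologicalSpace.PositiveCompacts (NN F8))

instance : IsProbabilityMeasure muN :=
  ⟨Measure.addHaarMeasure_self (K₀ := (⊤ : TopologicalSpace.PositiveCompacts (NN F8)))⟩

instance : Measure.IsAddHaarMeasure muN := by unfold muN; infer_instance
instance : Measure.IsHaarMeasure (muH r) := by unfold muH; infer_instance

/-- The space. -/
abbrev XX : Type := NN F8 × HH r

instance : MulAction (LG F8) (XX r) where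
  smul a x := (a.n + shift a.g x.1, rho' r a.g * x.2)
  one_smul x := by
    show ((1 : LG F8).n + shift (1 : LG F8).g x.1, rho' r (1 : LG F8).g * x.2) = x
    simp [shift_one]
  mul_smul a b x := by
    show ((a * b).n + shift (a * b).g x.1, rho' r (a * b).g * x.2) =
      (a.n + shift a.g (b.n + shift b.g x.1), rho' r a.g * (rho' r b.g * x.2))
    simp [shift_mul, shift_add, add_assoc, mul_assoc]

lemma smul_def' (a : LG F8) (x : XX r) :
    a • x = (a.n + shift a.g x.1, rho' r a.g * x.2) := rfl

instance : ContinuousSMul (LG F8) (XX r) := by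
  refine ⟨?_⟩
  show Continuous (fun z : LG F8 × XX r =>
    ((z.1.n + shift z.1.g z.2.1, rho' r z.1.g * z.2.2) : XX r))
  apply Continuous.prodMk
  · exact (LG.continuous_n.comp continuous_fst).add (LG.continuous_shift2.comp
      ((LG.continuous_g.comp continuous_fst).prodMk (continuous_fst.comp continuous_snd)))
  · apply Continuous.mul
    · exact (continuous_of_discreteTopology (f := rho' r)).comp
        (LG.continuous_g.comp continuous_fst)
    · exact continuous_snd.comp continuous_snd

/-- The invariant probability measure. -/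
noncomputable def muX : Measure (XX r) := muN.prod (muH r)

instance : IsProbabilityMeasure (muX r) := by unfold muX; infer_instance

lemma muX_inv (a : LG F8) : (muX r).map (fun x => a • x) = muX r := by
  have h1 : MeasurePreserving (fun y : NN F8 => a.n + shift a.g y) muN muN := by
    have h2 : MeasurePreserving (shift a.g : NN F8 → NN F8) muN muN :=
      AddMonoidHom.measurePreserving (f := shiftHom a.g) (continuous_shift a.g)
        (shiftHomeo a.g).surjective rfl
    exact (measurePreserving_add_left muN a.n).comp h2
  have h3 : MeasurePreserving (fun x : HH r => rho' r a.g * x) (muH r) (muH r) :=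
    measurePreserving_mul_left (muH r) (rho' r a.g)
  exact (h1.prod h3).map_eq

/-- The action. -/
noncomputable def A0 : PmpAction (LG F8) := mkPmp (XX r) (muX r) (muX_inv r)

theorem A0_free (hinj : ∀ w : F8, (∀ i, r i w = 1) → w = 1) : (A0 r).EssFree := by
  refine Eventually.of_forall ?_
  rintro ⟨y, x⟩ a ha h
  apply ha
  have h' : ((a.n + shift a.g y, rho' r a.g * x) : XX r) = (y, x) := h
  rw [Prod.mk.injEq] at h'
  have h1 : rho' r a.g = 1 := mul_eq_right.1 h'.2
  have h2 : a.g = 1 := by
    apply hinj
    intro i
    have h3 : rho r a.g = 1 := congrArg Subtype.val h1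
    have h4 := congrFun (congrArg Prod.fst h3) i
    exact h4
  have h3 : a.n = 0 := by
    have h4 := h'.1
    rw [h2, shift_one] at h4
    exact add_eq_right.1 h4
  exact LG.ext h3 h2

theorem A0_ergodic : (A0 r).Ergodic := by
  intro E hE hinv
  have hE' : MeasurableSet (E : Set (XX r)) := hE
  have hinv' : ∀ (a : LG F8) (x : XX r), a • x ∈ (E : Set (XX r)) ↔ x ∈ (E : Set (XX r)) := by
    intro a x
    have := hinv a
    exact Set.ext_iff.1 this x
  set E' : Set (HH r) := {x | ((0 : NN F8), x) ∈ (E : Set (XX r))} with hE'def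
  have hE'm : MeasurableSet E' := measurable_prodMk_left hE'
  have hprod : (E : Set (XX r)) = (univ : Set (NN F8)) ×ˢ E' := by
    ext ⟨y, x⟩
    have h1 := hinv' (nn y) ((0 : NN F8), x)
    rw [smul_def'] at h1
    simp only [nn, shift_one, add_zero, map_one, one_mul] at h1
    constructor
    · intro h2; exact ⟨mem_univ _, h1.1 h2⟩
    · rintro ⟨-, h2⟩; exact h1.2 h2
  have hE'inv : ∀ w : F8, (fun x => rho' r w * x) ⁻¹' E' = E' := by
    intro w
    ext x
    have h1 := hinv' ⟨0, w⟩ ((0 : NN F8), x)
    rw [smul_def'] at h1
    simp only [shift_zero, add_zero] at h1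
    exact h1
  have herg : EventuallyConst E' (ae (muH r)) := by
    apply aeconst_of_dense_setOfPred_preimage_smul_eq (M := HH r) hE'm.nullMeasurableSet
    refine (dense_rho' r).mono ?_
    rintro _ ⟨w, rfl⟩
    exact hE'inv w
  have h2 : muH r E' = 0 ∨ muH r E'ᶜ = 0 := by
    rw [eventuallyConst_set] at herg
    rcases herg with h | h
    · right; exact h
    · left
      rw [measure_eq_zero_iff_ae_notMem]; exact h
  have h3 : muX r (E : Set (XX r)) = muH r E' := by
    rw [hprod, muX, Measure.prod_prod, measure_univ, one_mul]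
  have h4 : muX r (E : Set (XX r))ᶜ = muH r E'ᶜ := by
    have : ((univ : Set (NN F8)) ×ˢ E')ᶜ = (univ : Set (NN F8)) ×ˢ E'ᶜ := by
      ext x; simp
    rw [hprod, this, muX, Measure.prod_prod, measure_univ, one_mul]
  rcases h2 with h2 | h2
  · left
    show muX r (E : Set (XX r)) = 0
    rw [h3, h2]
  · right
    show muX r (E : Set (XX r))ᶜ = 0
    rw [h4, h2]

/-- The sign function. -/
def sgn0 (x : (A0 r).X) : ZMod 2 :=
  Multiplicative.toAdd (((x : XX r).2 : (∀ i, Q i) × Multiplicative (ZMod 2)).2)

lemma sgn0_cont : Continuous (sgn0 r) := by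
  have h : Continuous (fun x : XX r =>
      Multiplicative.toAdd ((x.2 : (∀ i, Q i) × Multiplicative (ZMod 2)).2)) :=
    continuous_toAdd.comp (continuous_snd.comp (continuous_subtype_val.comp continuous_snd))
  exact h

lemma sgn0_nn (n : NN F8) (x : (A0 r).X) : sgn0 r (nn n • x) = sgn0 r x := by
  show Multiplicative.toAdd ((((rho' r (nn n).g * (x : XX r).2 : HH r) :
    (∀ i, Q i) × Multiplicative (ZMod 2))).2) = _
  have : (nn n).g = 1 := rfl
  rw [this, map_one, one_mul]
  rfl

lemma sgn0_gen (s : Fin 8) (x : (A0 r).X) : sgn0 r (gen s • x) = sgn0 r x + 1 := by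
  show Multiplicative.toAdd ((((rho' r (gen s).g * (x : XX r).2 : HH r) :
    (∀ i, Q i) × Multiplicative (ZMod 2))).2) = _
  have h1 : (gen s).g = FreeGroup.of s := rfl
  have h2 : (rho' r (FreeGroup.of s) : (∀ i, Q i) × Multiplicative (ZMod 2)).2 =
      Multiplicative.ofAdd (1 : ZMod 2) := by
    show FreeGroup.lift (fun _ => Multiplicative.ofAdd (1 : ZMod 2)) (FreeGroup.of s) = _
    simp
  rw [h1, Subgroup.coe_mul, Prod.snd_mul, h2, toAdd_mul, toAdd_ofAdd, add_comm]
  rfl

end act

end Pool.Agent.Helper99_LC
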