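import Pool.Agent.Helper99_LC.PermWord

/-!
Random permutations: almost invariant cuts do not exist; existence of good tuples.
-/

set_option autoImplicit false

open Finset

namespace Pool.Agent.Helper99_LC

section cut

variable {n : ℕ}

/-- Preimage of a finset under a permutation. -/
def pre (π : Equiv.Perm (Fin n)) (B : Finset (Fin n)) : Finset (Fin n) :=
  univ.filter (fun v => π v ∈ B)

lemma mem_pre {π : Equiv.Perm (Fin n)} {B : Finset (Fin n)} {v : Fin n} :
    v ∈ pre π B ↔ π v ∈ B := by simp [pre]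

lemma pre_mul (π τ : Equiv.Perm (Fin n)) (B : Finset (Fin n)) :
    pre (π * τ) B = pre τ (pre π B) := by
  ext v; simp [mem_pre]

lemma pre_eq_map (π : Equiv.Perm (Fin n)) (B : Finset (Fin n)) :
    pre π B = B.map (π⁻¹).toEmbedding := by
  ext v
  simp only [mem_pre, mem_map, Equiv.coe_toEmbedding]
  constructor
  · intro h; exact ⟨π v, h, by simp⟩
  · rintro ⟨x, hx, rfl⟩; simpa using hx

lemma card_pre (π : Equiv.Perm (Fin n)) (B : Finset (Fin n)) : (pre π B).card = B.card := by
  rw [pre_eq_map, card_map]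

lemma exists_pre_eq (B C : Finset (Fin n)) (h : B.card = C.card) :
    ∃ τ : Equiv.Perm (Fin n), pre τ B = C := by
  classical
  have e1 : B ≃ C := Fintype.equivOfCardEq (by simpa using h)
  obtain ⟨τ, hτ⟩ : ∃ τ : Equiv.Perm (Fin n), ∀ x : Fin n, ∀ hx : x ∈ C, τ x = (e1.symm ⟨x, hx⟩ : B) := by
    refine ⟨(e1.symm.extendSubtype), ?_⟩
    intro x hx
    exact Equiv.extendSubtype_apply_of_mem e1.symm x hx
  refine ⟨τ, ?_⟩
  have hsub : C ⊆ pre τ B := by
    intro x hx
    rw [mem_pre, hτ x hx]
    exact (e1.symm ⟨x, hx⟩).2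
  exact (eq_of_subset_of_card_le hsub (by rw [card_pre, h])).symm

lemma card_pre_eq (B C : Finset (Fin n)) :
    (univ.filter (fun π : Equiv.Perm (Fin n) => pre π B = C)).card * (n.choose B.card) ≤
      Fintype.card (Equiv.Perm (Fin n)) := by
  classical
  by_cases h : B.card = C.card
  · have hconst : ∀ C' ∈ powersetCard B.card (univ : Finset (Fin n)),
        (univ.filter (fun π : Equiv.Perm (Fin n) => pre π B = C')).card =
        (univ.filter (fun π : Equiv.Perm (Fin n) => pre π B = C)).card := by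
      intro C' hC'
      rw [mem_powersetCard] at hC'
      obtain ⟨τ, hτ⟩ := exists_pre_eq C' C (by rw [hC'.2, h])
      apply card_bij (fun π _ => π * τ)
      · intro π hπ
        simp only [mem_filter, mem_univ, true_and] at hπ ⊢
        rw [pre_mul, hπ, hτ]
      · intro π _ π' _ he
        exact mul_right_cancel he
      · intro π hπ
        simp only [mem_filter, mem_univ, true_and] at hπ
        refine ⟨π * τ⁻¹, ?_, by simp⟩
        simp only [mem_filter, mem_univ, true_and]
        rw [pre_mul, hπ, ← hτ, ← pre_mul]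
        simp only [mul_inv_cancel]
        ext v; simp [mem_pre]
    have hsum : ∑ C' ∈ powersetCard B.card (univ : Finset (Fin n)),
        (univ.filter (fun π : Equiv.Perm (Fin n) => pre π B = C')).card =
        Fintype.card (Equiv.Perm (Fin n)) := by
      rw [← card_univ (α := Equiv.Perm (Fin n))]
      symm
      apply card_eq_sum_card_fiberwise
      intro π _
      simp only [mem_coe, mem_powersetCard, subset_univ, true_and]
      exact card_pre π B
    rw [sum_congr rfl hconst, sum_const, card_powersetCard, card_univ, Fintype.card_fin,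
      smul_eq_mul] at hsum
    rw [← hsum]
    exact le_of_eq (mul_comm _ _)
  · have : (univ.filter (fun π : Equiv.Perm (Fin n) => pre π B = C)) = ∅ := by
      apply filter_eq_empty_iff.2
      intro π _ he
      exact h (by rw [← he, card_pre])
    rw [this]; simp

lemma card_small_sets (m : ℕ) (hm : 0 < m) :
    ((univ : Finset (Finset (Fin (300 * m)))).filter (fun E => E.card < m)).card ≤ 2 ^ (50 * m) := by
  classical
  have h1 : ∑ E : Finset (Fin (300 * m)), 64 ^ (300 * m - E.card) = 65 ^ (300 * m) := by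
    have := Finset.sum_pow_mul_eq_add_pow (1 : ℕ) 64 (univ : Finset (Fin (300 * m)))
    simp only [one_pow, one_mul, card_univ, Fintype.card_fin, powerset_univ] at this
    exact this
  have h2 : ((univ : Finset (Finset (Fin (300 * m)))).filter (fun E => E.card < m)).card *
      64 ^ (299 * m) ≤ 65 ^ (300 * m) := by
    rw [← h1, ← smul_eq_mul]
    refine (card_nsmul_le_sum _ (fun E => 64 ^ (300 * m - E.card)) _ ?_).trans ?_
    · intro E hE
      rw [mem_filter] at hE
      apply Nat.pow_le_pow_right (by norm_num)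
      omega
    · exact sum_le_sum_of_subset (subset_univ _)
  have h3 : 65 ^ (300 * m) ≤ 2 ^ (50 * m) * 64 ^ (299 * m) := by
    rw [pow_mul, pow_mul, pow_mul, ← mul_pow]
    apply Nat.pow_le_pow_left
    have h4 : (65 : ℕ) ^ 25 ≤ 2 * 64 ^ 25 := by norm_num
    calc (65 : ℕ) ^ 300 = (65 ^ 25) ^ 12 := by rw [← pow_mul]
      _ ≤ (2 * 64 ^ 25) ^ 12 := Nat.pow_le_pow_left h4 12
      _ = 2 ^ 18 * 64 ^ 299 := by
          rw [mul_pow, ← pow_mul]
          have : (64 : ℕ) ^ (25 * 12) = 64 * 64 ^ 299 := by rw [← pow_succ']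
          rw [this]; ring
      _ ≤ _ := Nat.mul_le_mul_right _ (Nat.pow_le_pow_right (by norm_num) (by norm_num))
  exact Nat.le_of_mul_le_mul_right (h2.trans h3) (by positivity)

lemma two_pow_le_choose (k : ℕ) : 2 ^ k ≤ (2 * k).choose k := by
  induction k with
  | zero => simp
  | succ k ih =>
    have h := Nat.succ_mul_centralBinom_succ k
    rw [Nat.centralBinom, Nat.centralBinom] at h
    have h2 : (k + 1) * 2 ^ (k + 1) ≤ (k + 1) * (2 * (k + 1)).choose (k + 1) := by
      rw [h, pow_succ]
      nlinarith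
    exact Nat.le_of_mul_le_mul_left h2 (by omega)

lemma choose_lower {m k : ℕ} (h1 : 100 * m ≤ k) (h2 : k ≤ 200 * m) :
    2 ^ (100 * m) ≤ (300 * m).choose k := by
  rcases le_total (2 * k) (300 * m) with h | h
  · calc 2 ^ (100 * m) ≤ 2 ^ k := Nat.pow_le_pow_right (by norm_num) h1
      _ ≤ (2 * k).choose k := two_pow_le_choose k
      _ ≤ _ := Nat.choose_le_choose k h
  · have h3 : (300 * m).choose k = (300 * m).choose (300 * m - k) :=
      (Nat.choose_symm (by omega)).symm
    rw [h3]
    calc 2 ^ (100 * m) ≤ 2 ^ (300 * m - k) := Nat.pow_le_pow_right (by norm_num) (by omega)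
      _ ≤ (2 * (300 * m - k)).choose (300 * m - k) := two_pow_le_choose _
      _ ≤ _ := Nat.choose_le_choose _ (by omega)

/-- Few permutations almost map `B` to `D`. -/
lemma card_almost (m : ℕ) (hm : 0 < m) (B D : Finset (Fin (300 * m)))
    (h1 : 100 * m ≤ B.card) (h2 : B.card ≤ 200 * m) :
    (univ.filter (fun π : Equiv.Perm (Fin (300 * m)) => (symmDiff (pre π B) D).card < m)).card *
      2 ^ (50 * m) ≤ Fintype.card (Equiv.Perm (Fin (300 * m))) := by
  classical
  set P := Fintype.card (Equiv.Perm (Fin (300 * m)))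
  set T := (univ : Finset (Finset (Fin (300 * m)))).filter (fun C => (symmDiff C D).card < m)
  have hT : T.card ≤ 2 ^ (50 * m) := by
    refine le_trans (le_of_eq ?_) (card_small_sets m hm)
    apply card_bij (fun C _ => symmDiff C D)
    · intro C hC; simpa [T] using hC
    · intro C _ C' _ h; exact symmDiff_left_injective D h
    · intro E hE
      refine ⟨symmDiff E D, ?_, by simp⟩
      simpa [T] using hE
  have hc : (univ.filter (fun π : Equiv.Perm (Fin (300 * m)) =>
      (symmDiff (pre π B) D).card < m)).card * (300 * m).choose B.card ≤ T.card * P := by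
    have : (univ.filter (fun π : Equiv.Perm (Fin (300 * m)) => (symmDiff (pre π B) D).card < m)) ⊆
        T.biUnion (fun C => univ.filter (fun π => pre π B = C)) := by
      intro π hπ
      simp only [mem_filter, mem_univ, true_and, mem_biUnion, T] at hπ ⊢
      exact ⟨_, hπ, rfl⟩
    refine (Nat.mul_le_mul_right _ ((card_le_card this).trans card_biUnion_le)).trans ?_
    rw [sum_mul]
    refine (sum_le_card_nsmul _ _ P ?_).trans (le_of_eq (by rw [smul_eq_mul]))
    intro C _
    exact card_pre_eq B C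
  have hlow := choose_lower h1 h2
  set X := (univ.filter (fun π : Equiv.Perm (Fin (300 * m)) =>
      (symmDiff (pre π B) D).card < m)).card
  have h5 : X * 2 ^ (50 * m) * 2 ^ (50 * m) ≤ P * 2 ^ (50 * m) := by
    calc X * 2 ^ (50 * m) * 2 ^ (50 * m) = X * 2 ^ (100 * m) := by
          rw [mul_assoc, ← pow_add]; congr 2; ring
      _ ≤ X * (300 * m).choose B.card := Nat.mul_le_mul_left _ hlow
      _ ≤ T.card * P := hc
      _ ≤ 2 ^ (50 * m) * P := Nat.mul_le_mul_right _ hT
      _ = _ := mul_comm _ _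
  exact Nat.le_of_mul_le_mul_right h5 (by positivity)

open Classical in
/-- The tuples having an almost invariant or almost swapped middle-sized set. -/
lemma card_bad (m : ℕ) (hm : 0 < m) :
    (univ.filter (fun σ : Fin 8 → Equiv.Perm (Fin (300 * m)) =>
      ∃ B D : Finset (Fin (300 * m)), (D = B ∨ D = Bᶜ) ∧ 100 * m ≤ B.card ∧ B.card ≤ 200 * m ∧
        ∀ s, (symmDiff (pre (σ s) B) D).card < m)).card * 4 ≤
      Fintype.card (Fin 8 → Equiv.Perm (Fin (300 * m))) := by
  set P := Fintype.card (Equiv.Perm (Fin (300 * m))) with hP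
  set bad : Finset (Fin (300 * m)) × Bool → Finset (Fin 8 → Equiv.Perm (Fin (300 * m))) :=
    fun z => Fintype.piFinset (fun _ => univ.filter (fun π : Equiv.Perm (Fin (300 * m)) =>
      (100 * m ≤ z.1.card ∧ z.1.card ≤ 200 * m) ∧
      (symmDiff (pre π z.1) (if z.2 then z.1 else z.1ᶜ)).card < m)) with hbad
  have hsub : (univ.filter (fun σ : Fin 8 → Equiv.Perm (Fin (300 * m)) =>
      ∃ B D : Finset (Fin (300 * m)), (D = B ∨ D = Bᶜ) ∧ 100 * m ≤ B.card ∧ B.card ≤ 200 * m ∧
        ∀ s, (symmDiff (pre (σ s) B) D).card < m)) ⊆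
      (univ : Finset (Finset (Fin (300 * m)) × Bool)).biUnion bad := by
    intro σ hσ
    simp only [mem_filter, mem_univ, true_and, mem_biUnion, hbad, Fintype.mem_piFinset] at hσ ⊢
    obtain ⟨B, D, hD, h1, h2, h3⟩ := hσ
    rcases hD with rfl | rfl
    · exact ⟨(D, true), fun s => ⟨⟨h1, h2⟩, by simpa using h3 s⟩⟩
    · exact ⟨(B, false), fun s => ⟨⟨h1, h2⟩, by simpa using h3 s⟩⟩
  have hone : ∀ z, (bad z).card * 2 ^ (400 * m) ≤ P ^ 8 := by
    intro z
    have h1 : (bad z).card = ((univ.filter (fun π : Equiv.Perm (Fin (300 * m)) =>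
      (100 * m ≤ z.1.card ∧ z.1.card ≤ 200 * m) ∧
      (symmDiff (pre π z.1) (if z.2 then z.1 else z.1ᶜ)).card < m)).card) ^ 8 := by
      simp [hbad, Fintype.card_piFinset]
    rw [h1]
    have h2 : 2 ^ (400 * m) = (2 ^ (50 * m)) ^ 8 := by
      rw [← pow_mul]; congr 1; ring
    rw [h2, ← mul_pow]
    apply Nat.pow_le_pow_left
    by_cases hz : 100 * m ≤ z.1.card ∧ z.1.card ≤ 200 * m
    · refine le_trans (Nat.mul_le_mul_right _ (card_le_card ?_))
        (card_almost m hm z.1 (if z.2 then z.1 else z.1ᶜ) hz.1 hz.2)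
      intro π hπ
      simp only [mem_filter, mem_univ, true_and] at hπ ⊢
      exact hπ.2
    · have : (univ.filter (fun π : Equiv.Perm (Fin (300 * m)) =>
        (100 * m ≤ z.1.card ∧ z.1.card ≤ 200 * m) ∧
        (symmDiff (pre π z.1) (if z.2 then z.1 else z.1ᶜ)).card < m)) = ∅ := by
        apply filter_eq_empty_iff.2
        intro π _ h
        exact hz h.1
      rw [this]; simp
  have hcardO : Fintype.card (Fin 8 → Equiv.Perm (Fin (300 * m))) = P ^ 8 := by
    simp [P]
  rw [hcardO]
  set X := (univ.filter (fun σ : Fin 8 → Equiv.Perm (Fin (300 * m)) =>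
      ∃ B D : Finset (Fin (300 * m)), (D = B ∨ D = Bᶜ) ∧ 100 * m ≤ B.card ∧ B.card ≤ 200 * m ∧
        ∀ s, (symmDiff (pre (σ s) B) D).card < m)).card with hX
  have h1 : X * 2 ^ (400 * m) ≤ 2 ^ (300 * m + 1) * P ^ 8 := by
    refine (Nat.mul_le_mul_right _ ((card_le_card hsub).trans card_biUnion_le)).trans ?_
    rw [sum_mul]
    refine (sum_le_card_nsmul _ _ (P ^ 8) (fun z _ => hone z)).trans (le_of_eq ?_)
    rw [smul_eq_mul]
    congr 1
    simp [pow_succ]
  have h2 : X * 4 * 2 ^ (300 * m + 1) ≤ P ^ 8 * 2 ^ (300 * m + 1) := by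
    have h3 : 4 * 2 ^ (300 * m + 1) ≤ 2 ^ (400 * m) := by
      calc 4 * 2 ^ (300 * m + 1) = 2 ^ (300 * m + 3) := by ring
        _ ≤ _ := Nat.pow_le_pow_right (by norm_num) (by omega)
    calc X * 4 * 2 ^ (300 * m + 1) = X * (4 * 2 ^ (300 * m + 1)) := by ring
      _ ≤ X * 2 ^ (400 * m) := Nat.mul_le_mul_left _ h3
      _ ≤ _ := h1
      _ = _ := mul_comm _ _
  exact Nat.le_of_mul_le_mul_right h2 (by positivity)

end cut

open Classical in
/-- Markov bound for the number of fixed points. -/
lemma card_many_fixed (n K : ℕ) (hn : 0 < n) (w : FreeGroup (Fin 8)) (hw : w ≠ 1) :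
    (univ.filter (fun σ : Fin 8 → Equiv.Perm (Fin n) =>
      n < K * (univ.filter (fun v => FreeGroup.lift σ w v = v)).card)).card *
      (n - w.toWord.length) ≤ K * (w.toWord.length * (w.toWord.length + 1)) *
      Fintype.card (Fin 8 → Equiv.Perm (Fin n)) := by
  set L := w.toWord.length
  set O := Fintype.card (Fin 8 → Equiv.Perm (Fin n))
  set A := (univ.filter (fun σ : Fin 8 → Equiv.Perm (Fin n) =>
      n < K * (univ.filter (fun v => FreeGroup.lift σ w v = v)).card))
  have h1 : A.card * n ≤ K * ∑ σ : Fin 8 → Equiv.Perm (Fin n),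
      (univ.filter (fun v => FreeGroup.lift σ w v = v)).card := by
    rw [← smul_eq_mul, mul_sum]
    refine (card_nsmul_le_sum A (fun σ => K * (univ.filter
      (fun v => FreeGroup.lift σ w v = v)).card) n ?_).trans ?_
    · intro σ hσ
      simp only [A, mem_filter, mem_univ, true_and] at hσ
      exact hσ.le
    · exact sum_le_sum_of_subset (subset_univ _)
  have h2 : (∑ σ : Fin 8 → Equiv.Perm (Fin n),
      (univ.filter (fun v => FreeGroup.lift σ w v = v)).card) =
      ∑ v : Fin n, (univ.filter (fun σ : Fin 8 → Equiv.Perm (Fin n) =>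
        FreeGroup.lift σ w v = v)).card := by
    simp only [card_filter]
    rw [sum_comm]
  have h3 : (∑ σ : Fin 8 → Equiv.Perm (Fin n),
      (univ.filter (fun v => FreeGroup.lift σ w v = v)).card) * (n - L) ≤
      n * (L * (L + 1) * O) := by
    rw [h2, sum_mul]
    refine (sum_le_card_nsmul _ _ (L * (L + 1) * O) (fun v _ => card_fixed w hw v)).trans
      (le_of_eq ?_)
    simp
  have h4 : A.card * (n - L) * n ≤ K * (L * (L + 1)) * O * n := by
    calc A.card * (n - L) * n = A.card * n * (n - L) := by ring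
      _ ≤ K * (∑ σ : Fin 8 → Equiv.Perm (Fin n),
          (univ.filter (fun v => FreeGroup.lift σ w v = v)).card) * (n - L) :=
          Nat.mul_le_mul_right _ h1
      _ ≤ K * (n * (L * (L + 1) * O)) := by
          rw [mul_assoc]; exact Nat.mul_le_mul_left _ h3
      _ = _ := by ring
  exact Nat.le_of_mul_le_mul_right h4 hn

/-- Existence of good tuples of permutations. -/
theorem exists_good_perms (F : Finset (FreeGroup (Fin 8))) (hF : ∀ w ∈ F, w ≠ 1) (K : ℕ) :
    ∃ (m : ℕ) (σ : Fin 8 → Equiv.Perm (Fin (300 * m))), 0 < m ∧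
      (∀ w ∈ F, K * (univ.filter (fun v => FreeGroup.lift σ w v = v)).card ≤ 300 * m) ∧
      ∀ B D : Finset (Fin (300 * m)), (D = B ∨ D = Bᶜ) → 100 * m ≤ B.card → B.card ≤ 200 * m →
        ∃ s, m ≤ (symmDiff (pre (σ s) B) D).card := by
  classical
  set C := ∑ w ∈ F, (K * (w.toWord.length * (w.toWord.length + 1))) with hC
  set L := ∑ w ∈ F, w.toWord.length with hL
  set m := 4 * C + L + 1 with hm
  have hm0 : 0 < m := by omega
  set n := 300 * m with hn
  set O := Fintype.card (Fin 8 → Equiv.Perm (Fin n)) with hO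
  have hO0 : 0 < O := Fintype.card_pos
  set bad1 := F.biUnion (fun w => univ.filter (fun σ : Fin 8 → Equiv.Perm (Fin n) =>
      n < K * (univ.filter (fun v => FreeGroup.lift σ w v = v)).card)) with hbad1
  set bad2 := (univ.filter (fun σ : Fin 8 → Equiv.Perm (Fin (300 * m)) =>
      ∃ B D : Finset (Fin (300 * m)), (D = B ∨ D = Bᶜ) ∧ 100 * m ≤ B.card ∧ B.card ≤ 200 * m ∧
        ∀ s, (symmDiff (pre (σ s) B) D).card < m)) with hbad2
  have h1 : bad1.card * (4 * C + 1) ≤ C * O := by
    refine (Nat.mul_le_mul_right _ card_biUnion_le).trans ?_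
    rw [sum_mul, hC, sum_mul]
    apply sum_le_sum
    intro w hw
    have h2 := card_many_fixed n K (by omega) w (hF w hw)
    refine le_trans (Nat.mul_le_mul_left _ ?_) h2
    have h3 : w.toWord.length ≤ L := single_le_sum (f := fun w : FreeGroup (Fin 8) =>
      w.toWord.length) (fun _ _ => Nat.zero_le _) hw
    omega
  have h2 : bad2.card * 4 ≤ O := card_bad m hm0
  have h3 : bad1.card * 4 ≤ O := by
    have h4 : bad1.card * 4 * (4 * C + 1) ≤ O * (4 * C + 1) := by
      calc bad1.card * 4 * (4 * C + 1) = bad1.card * (4 * C + 1) * 4 := by ring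
        _ ≤ C * O * 4 := Nat.mul_le_mul_right _ h1
        _ ≤ _ := by nlinarith
    exact Nat.le_of_mul_le_mul_right h4 (by omega)
  have h4 : (bad1 ∪ bad2).card < (univ : Finset (Fin 8 → Equiv.Perm (Fin n))).card := by
    have := card_union_le bad1 bad2
    rw [card_univ]
    change _ < O
    omega
  obtain ⟨σ, -, hσ⟩ := exists_mem_notMem_of_card_lt_card h4
  rw [mem_union, not_or] at hσ
  refine ⟨m, σ, hm0, ?_, ?_⟩
  · intro w hw
    by_contra hcon
    push Not at hcon
    apply hσ.1
    rw [hbad1, mem_biUnion]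
    exact ⟨w, hw, by simpa using hcon⟩
  · intro B D hD hB1 hB2
    by_contra hcon
    push Not at hcon
    apply hσ.2
    rw [hbad2, mem_filter]
    exact ⟨mem_univ _, B, D, hD, hB1, hB2, hcon⟩

end Pool.Agent.Helper99_LC
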