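import Pool.Agent.Helper99_LC.Gap
import Pool.Agent.Helper99_LC.PermCut

/-!
A sign function on the model space gives an almost alternating cut.
-/

set_option autoImplicit false

open MeasureTheory Set Filter Topology
open scoped ENNReal Topology

namespace Pool.Agent.Helper99_LC

section shiftinv

variable {Γ : Type} [Group Γ] [TopologicalSpace Γ] [DiscreteTopology Γ] [Countable Γ]

/-- The shift as an additive homomorphism. -/
def shiftHom (g : Γ) : NN Γ →+ NN Γ where
  toFun := shift g
  map_zero' := rfl
  map_add' _ _ := rfl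

lemma kap_haar (lam : Measure (LG Γ)) (h : IsRightHaar lam) :
    (LG.kap lam).IsAddHaarMeasure := by
  haveI := kap_sfinite lam h
  haveI : (LG.kap lam).IsAddLeftInvariant := by
    refine ⟨fun x => ?_⟩
    have h1 := LG.kap_add lam h x
    have h2 : (fun y : NN Γ => x + y) = (fun y => y + x) := by
      funext y; exact add_comm _ _
    rw [h2, h1]
  have hpos := LG.kap_univ_pos lam h
  exact Measure.isAddHaarMeasure_of_isCompact_nonempty_interior (LG.kap lam) univ
    isCompact_univ (by simp) hpos.ne' (measure_ne_top _ _)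

lemma kap_shift (lam : Measure (LG Γ)) (h : IsRightHaar lam) (g : Γ) :
    MeasurePreserving (shift g : NN Γ → NN Γ) (LG.kap lam) (LG.kap lam) := by
  haveI := kap_haar lam h
  exact AddMonoidHom.measurePreserving (f := shiftHom g) (continuous_shift g)
    (shiftHomeo g).surjective rfl

end shiftinv

instance freeTop : TopologicalSpace (FreeGroup (Fin 8)) := ⊥
instance freeDisc : DiscreteTopology (FreeGroup (Fin 8)) := ⟨rfl⟩
instance freeCount : Countable (FreeGroup (Fin 8)) := by
  unfold FreeGroup; infer_instance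

/-- The free group on eight generators. -/
abbrev F8 : Type := FreeGroup (Fin 8)

/-- The generators as elements of the big group. -/
def gen (s : Fin 8) : LG F8 := ⟨0, FreeGroup.of s⟩

/-- Key step: a measurable sign function on the model space which is almost invariant under
the compact subgroup and almost alternating along the generators is impossible. -/
theorem no_sign (m : ℕ) (hm : 0 < m) (σ : Fin 8 → Equiv.Perm (Fin (300 * m)))
    (hcut : ∀ B D : Finset (Fin (300 * m)), (D = B ∨ D = Bᶜ) → 100 * m ≤ B.card →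
      B.card ≤ 200 * m → ∃ s, m ≤ (symmDiff (pre (σ s) B) D).card)
    (lam : Measure (LG F8)) (h : IsRightHaar lam) (f : Fin (300 * m) × NN F8 → ZMod 2)
    (hf : Measurable f)
    (h1 : ∀ n : NN F8, mvol (300 * m) lam {p | f (p.1, p.2 + n) ≠ f p} ≤
      mvol (300 * m) lam univ / 1000)
    (h2 : ∀ s : Fin 8, mvol (300 * m) lam
      {p | f (mact (FreeGroup.lift σ) (gen s) p) ≠ f p + 1} ≤ mvol (300 * m) lam univ / 1000) :
    False := by
  classical
  haveI := kap_sfinite lam h
  have hK0 := LG.kap_univ_pos lam h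
  have hK1 := LG.kap_univ_lt_top lam h
  set κ := LG.kap lam with hκ
  set K0 := κ univ with hK0def
  have hvol : mvol (300 * m) lam univ = (300 * m : ℕ) * K0 := mvol_univ lam h
  set L : ℝ≥0∞ := mvol (300 * m) lam univ / 1000 with hL
  have hfv : ∀ v, Measurable (fun y : NN F8 => f (v, y)) := fun v => hf.comp measurable_prodMk_left
  -- first step: find a good fibre
  have hm1 : ∀ v, MeasurableSet {z : NN F8 × NN F8 | f (v, z.2) ≠ f (v, z.1)} := by
    intro v
    exact (measurableSet_eq_fun ((hfv v).comp measurable_snd) ((hfv v).comp measurable_fst)).compl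
  have hm2 : ∀ v, MeasurableSet {z : NN F8 × NN F8 | f (v, z.1 + z.2) ≠ f (v, z.1)} := by
    intro v
    have h3 : Measurable (fun z : NN F8 × NN F8 => z.1 + z.2) := continuous_add.measurable
    exact (measurableSet_eq_fun ((hfv v).comp h3) ((hfv v).comp measurable_fst)).compl
  have hswap : ∀ v, ∫⁻ y, κ {y' | f (v, y') ≠ f (v, y)} ∂κ =
      ∫⁻ n, κ {y | f (v, y + n) ≠ f (v, y)} ∂κ := by
    intro v
    have e1 : ∫⁻ n, κ {y | f (v, y + n) ≠ f (v, y)} ∂κ =
        (κ.prod κ) {z : NN F8 × NN F8 | f (v, z.1 + z.2) ≠ f (v, z.1)} := by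
      rw [Measure.prod_apply_symm (hm2 v)]; rfl
    have e2 : ∫⁻ y, κ {n | f (v, y + n) ≠ f (v, y)} ∂κ =
        (κ.prod κ) {z : NN F8 × NN F8 | f (v, z.1 + z.2) ≠ f (v, z.1)} := by
      rw [Measure.prod_apply (hm2 v)]; rfl
    rw [e1, ← e2]
    apply lintegral_congr
    intro y
    have h3 := LG.kap_add lam h y
    have h4 : Measurable (fun x : NN F8 => x + y) := (continuous_add_const y).measurable
    have h5 : MeasurableSet {y' : NN F8 | f (v, y') ≠ f (v, y)} :=
      (measurableSet_eq_fun (hfv v) measurable_const).compl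
    have h6 : κ {y' | f (v, y') ≠ f (v, y)} =
        (LG.kap lam).map (fun x => x + y) {y' | f (v, y') ≠ f (v, y)} := by
      rw [h3]
    rw [h6, Measure.map_apply h4 h5]
    congr 1
    ext n
    simp only [mem_preimage, mem_ofPred_eq, add_comm]
  have hL1 : ∫⁻ y, ∑ v, κ {y' | f (v, y') ≠ f (v, y)} ∂κ ≤ L * K0 := by
    rw [lintegral_finsetSum]
    · calc ∑ v, ∫⁻ y, κ {y' | f (v, y') ≠ f (v, y)} ∂κ
          = ∑ v, ∫⁻ n, κ {y | f (v, y + n) ≠ f (v, y)} ∂κ :=
            Finset.sum_congr rfl fun v _ => hswap v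
        _ = ∫⁻ n, ∑ v, κ {y | f (v, y + n) ≠ f (v, y)} ∂κ := by
            rw [lintegral_finsetSum]
            intro v _
            exact measurable_measure_prodMk_right (hm2 v)
        _ ≤ ∫⁻ _, L ∂κ := by
            apply lintegral_mono
            intro n
            have h3 := h1 n
            have h4 : MeasurableSet {p : Fin (300 * m) × NN F8 | f (p.1, p.2 + n) ≠ f p} := by
              have h5 : Measurable (fun p : Fin (300 * m) × NN F8 => (p.1, p.2 + n)) :=
                (continuous_fst.prodMk (continuous_snd.add continuous_const)).measurable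
              exact (measurableSet_eq_fun (hf.comp h5) hf).compl
            rw [mvol_apply lam h h4] at h3
            exact h3
        _ = L * K0 := by rw [lintegral_const]
    · intro v _
      exact measurable_measure_prodMk_left (hm1 v)
  obtain ⟨y₀, hy₀⟩ : ∃ y₀, ∑ v, κ {y' | f (v, y') ≠ f (v, y₀)} ≤ L := by
    have hne : κ ≠ 0 := by
      intro h0
      rw [hK0def, h0] at hK0
      simp at hK0
    have hmeas : Measurable (fun y => ∑ v, κ {y' | f (v, y') ≠ f (v, y)}) := by
      apply Finset.measurable_sum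
      intro v _
      exact measurable_measure_prodMk_left (hm1 v)
    obtain ⟨y₀, hy₀⟩ := exists_le_laverage hne hmeas.aemeasurable
    refine ⟨y₀, hy₀.trans ?_⟩
    rw [laverage_eq, ENNReal.div_le_iff hK0.ne' hK1.ne]
    exact hL1
  set a : Fin (300 * m) → ℝ≥0∞ := fun v => κ {y' | f (v, y') ≠ f (v, y₀)} with ha
  set B : Finset (Fin (300 * m)) := Finset.univ.filter (fun v => f (v, y₀) = 1) with hB
  have hsym : ∀ s, (symmDiff (pre (σ s) B) Bᶜ).card < m := by
    intro s
    set b : Fin (300 * m) → ℝ≥0∞ := fun v =>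
      κ {y | f (σ s v, shift (FreeGroup.of s) y) ≠ f (v, y) + 1} with hb
    have hshift : Measurable (fun y : NN F8 => shift (FreeGroup.of s) y) :=
      (continuous_shift (FreeGroup.of s)).measurable
    have hbsum : ∑ v, b v ≤ L := by
      have h3 := h2 s
      have h5 : Measurable (fun p : Fin (300 * m) × NN F8 =>
          mact (FreeGroup.lift σ) (gen s) p) :=
        ((continuous_mact (FreeGroup.lift σ)).comp
          (continuous_const.prodMk continuous_id)).measurable
      have h6 : Measurable (fun p : Fin (300 * m) × NN F8 => f p + 1) :=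
        (measurable_of_countable (fun z : ZMod 2 => z + 1)).comp hf
      have h4 : MeasurableSet {p : Fin (300 * m) × NN F8 |
          f (mact (FreeGroup.lift σ) (gen s) p) ≠ f p + 1} :=
        (measurableSet_eq_fun (hf.comp h5) h6).compl
      rw [mvol_apply lam h h4] at h3
      refine le_trans (le_of_eq ?_) h3
      apply Finset.sum_congr rfl
      intro v _
      simp only [hb]
      congr 1
      ext y
      simp only [mem_ofPred_eq, mact, gen, FreeGroup.lift_apply_of, zero_add]
    have hasum : ∑ v, a (σ s v) ≤ L := by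
      rw [Equiv.sum_comp (σ s) a]; exact hy₀
    have hash : ∀ v, κ {y | f (σ s v, shift (FreeGroup.of s) y) ≠ f (σ s v, y₀)} =
        a (σ s v) := by
      intro v
      have h3 := kap_shift lam h (FreeGroup.of s)
      have h5 : MeasurableSet {y' : NN F8 | f (σ s v, y') ≠ f (σ s v, y₀)} :=
        (measurableSet_eq_fun (hfv _) measurable_const).compl
      have h4 := h3.measure_preimage h5.nullMeasurableSet
      exact h4
    have hkey : ∀ v ∈ symmDiff (pre (σ s) B) Bᶜ, K0 ≤ a (σ s v) + b v + a v := by
      intro v hv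
      have hv' : f (σ s v, y₀) = f (v, y₀) := by
        rw [Finset.mem_symmDiff, mem_pre, Finset.mem_compl, hB, Finset.mem_filter,
          Finset.mem_filter] at hv
        simp only [Finset.mem_univ, true_and, not_not] at hv
        generalize f (σ s v, y₀) = x at hv ⊢
        generalize f (v, y₀) = y at hv ⊢
        revert x y
        decide
      have hcov : (univ : Set (NN F8)) ⊆
          {y | f (σ s v, shift (FreeGroup.of s) y) ≠ f (σ s v, y₀)} ∪
          {y | f (σ s v, shift (FreeGroup.of s) y) ≠ f (v, y) + 1} ∪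
          {y | f (v, y) ≠ f (v, y₀)} := by
        intro y _
        by_contra hcon
        simp only [mem_union, mem_ofPred_eq, not_or, not_not] at hcon
        obtain ⟨⟨h3, h4⟩, h5⟩ := hcon
        rw [h3, h5, hv'] at h4
        generalize f (v, y₀) = x at h4
        revert x
        decide
      calc K0 ≤ κ ({y | f (σ s v, shift (FreeGroup.of s) y) ≠ f (σ s v, y₀)} ∪
          {y | f (σ s v, shift (FreeGroup.of s) y) ≠ f (v, y) + 1} ∪
          {y | f (v, y) ≠ f (v, y₀)}) := measure_mono hcov
        _ ≤ κ {y | f (σ s v, shift (FreeGroup.of s) y) ≠ f (σ s v, y₀)} +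
          κ {y | f (σ s v, shift (FreeGroup.of s) y) ≠ f (v, y) + 1} +
          κ {y | f (v, y) ≠ f (v, y₀)} :=
            (measure_union_le _ _).trans (by gcongr; exact measure_union_le _ _)
        _ = _ := by rw [hash v]
    have h7 : ((symmDiff (pre (σ s) B) Bᶜ).card : ℝ≥0∞) * K0 ≤ 3 * L := by
      calc ((symmDiff (pre (σ s) B) Bᶜ).card : ℝ≥0∞) * K0
          = ∑ _v ∈ symmDiff (pre (σ s) B) Bᶜ, K0 := by rw [Finset.sum_const, nsmul_eq_mul]
        _ ≤ ∑ v ∈ symmDiff (pre (σ s) B) Bᶜ, (a (σ s v) + b v + a v) :=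
            Finset.sum_le_sum hkey
        _ ≤ ∑ v, (a (σ s v) + b v + a v) :=
            Finset.sum_le_sum_of_subset (Finset.subset_univ _)
        _ = ∑ v, a (σ s v) + ∑ v, b v + ∑ v, a v := by
            rw [Finset.sum_add_distrib, Finset.sum_add_distrib]
        _ ≤ L + L + L := by gcongr
        _ = 3 * L := by ring
    have h8 : ((symmDiff (pre (σ s) B) Bᶜ).card : ℝ≥0∞) * 1000 ≤ 900 * m := by
      have h9 : (((symmDiff (pre (σ s) B) Bᶜ).card : ℝ≥0∞) * 1000) * K0 ≤ (900 * m) * K0 := by
        calc (((symmDiff (pre (σ s) B) Bᶜ).card : ℝ≥0∞) * 1000) * K0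
            = 1000 * (((symmDiff (pre (σ s) B) Bᶜ).card : ℝ≥0∞) * K0) := by ring
          _ ≤ 1000 * (3 * L) := by gcongr
          _ = 3 * (1000 * L) := by ring
          _ = 3 * mvol (300 * m) lam univ := by
              rw [hL, ENNReal.mul_div_cancel (by simp) (by simp)]
          _ = (900 * m) * K0 := by rw [hvol]; push_cast; ring
      exact (ENNReal.mul_le_mul_iff_left hK0.ne' hK1.ne).1 h9
    have h10 : (symmDiff (pre (σ s) B) Bᶜ).card * 1000 ≤ 900 * m := by exact_mod_cast h8
    omega
  -- the size of B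
  have hc1 : (pre (σ 0) B).card ≤ (Bᶜ).card + (symmDiff (pre (σ 0) B) Bᶜ).card := by
    refine le_trans (Finset.card_le_card ?_) (Finset.card_union_le _ _)
    intro v hv
    by_cases h3 : v ∈ Bᶜ
    · exact Finset.mem_union_left _ h3
    · exact Finset.mem_union_right _ (Finset.mem_symmDiff.2 (Or.inl ⟨hv, h3⟩))
  have hc2 : (Bᶜ).card ≤ (pre (σ 0) B).card + (symmDiff (pre (σ 0) B) Bᶜ).card := by
    refine le_trans (Finset.card_le_card ?_) (Finset.card_union_le _ _)
    intro v hv
    by_cases h3 : v ∈ pre (σ 0) B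
    · exact Finset.mem_union_left _ h3
    · exact Finset.mem_union_right _ (Finset.mem_symmDiff.2 (Or.inr ⟨hv, h3⟩))
  have hc3 := hsym 0
  rw [card_pre] at hc1 hc2
  have hc4 : B.card + (Bᶜ).card = 300 * m := by
    rw [Finset.card_add_card_compl, Fintype.card_fin]
  obtain ⟨s, hs⟩ := hcut B Bᶜ (Or.inr rfl) (by omega) (by omega)
  exact absurd hs (not_le.2 (hsym s))

end Pool.Agent.Helper99_LC
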