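import Pool.Agent.Helper99_LC.NegCut

/-!
An action with a suitable sign function has entropy `-∞`.
-/

set_option autoImplicit false

open MeasureTheory Set Filter Topology
open scoped ENNReal Topology

namespace Pool.Agent.Helper99_LC

lemma exists_sep (X : Type) [MetricSpace X] [CompactSpace X] (sgn : X → ZMod 2)
    (hc : Continuous sgn) : ∃ c : ℝ, 0 < c ∧ ∀ x y, dist x y < c → sgn x = sgn y := by
  set K : Set (X × X) := {z | sgn z.1 ≠ sgn z.2} with hK
  have hKc : IsClosed K := by
    have h1 : IsOpen {z : X × X | sgn z.1 = sgn z.2} := by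
      have h2 : Continuous (fun z : X × X => (sgn z.1, sgn z.2)) :=
        (hc.comp continuous_fst).prodMk (hc.comp continuous_snd)
      have h3 : IsOpen {w : ZMod 2 × ZMod 2 | w.1 = w.2} := isOpen_discrete _
      exact h3.preimage h2
    exact ⟨by convert h1 using 1; ext z; simp [hK]⟩
  rcases K.eq_empty_or_nonempty with hE | hne
  · refine ⟨1, one_pos, fun x y _ => ?_⟩
    by_contra hcon
    have : (x, y) ∈ K := hcon
    rw [hE] at this
    exact this
  · obtain ⟨z0, hz0, hmin⟩ := hKc.isCompact.exists_isMinOn hne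
      (f := fun z : X × X => dist z.1 z.2) continuous_dist.continuousOn
    have hpos : 0 < dist z0.1 z0.2 := by
      rw [dist_pos]
      intro h
      exact hz0 (by rw [h])
    refine ⟨_, hpos, fun x y hxy => ?_⟩
    by_contra hcon
    have h2 : (x, y) ∈ K := hcon
    have h3 : dist z0.1 z0.2 ≤ dist x y := hmin h2
    linarith

theorem entropy_bot_of_sgn (lam : Measure (LG F8)) (h : IsRightHaar lam)
    (S : SoficApprox (LG F8) lam) (m : ℕ → ℕ) (hm : ∀ i, 0 < m i)
    (σ : ∀ i, Fin 8 → Equiv.Perm (Fin (300 * m i)))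
    (hcut : ∀ i, ∀ B D : Finset (Fin (300 * m i)), (D = B ∨ D = Bᶜ) → 100 * m i ≤ B.card →
      B.card ≤ 200 * m i → ∃ s, m i ≤ (symmDiff (pre (σ i s) B) D).card)
    (hk : ∀ i, 0 < 300 * m i)
    (hM : ∀ i, S.M i = modSpace (FreeGroup.lift (σ i)) (hk i) lam h) (A : PmpAction (LG F8))
    (sgn : A.X → ZMod 2) (hc : Continuous sgn) (hn : ∀ (n : NN F8) x, sgn (nn n • x) = sgn x)
    (hg : ∀ (s : Fin 8) x, sgn (gen s • x) = sgn x + 1) : entropy S A = ⊥ := by
  obtain ⟨c, hc0, hcs⟩ := exists_sep A.X sgn hc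
  set Bs : Set F8 := {1} ∪ range (fun s : Fin 8 => FreeGroup.of s) with hBs
  have hBf : Bs.Finite := (finite_singleton 1).union (finite_range _)
  have hδ : 0 < ENNReal.ofReal c / 1000 := by
    apply ENNReal.div_pos
    · simpa using hc0
    · simp
  apply entropy_eq_bot S A {a | a.g ∈ Bs} (LG.isOpen_fiber Bs) (by
      rw [(LG.isClosed_fiber Bs).closure_eq]; exact LG.isCompact_fiber hBf)
    (ENNReal.ofReal c / 1000) hδ univ univ_mem
  filter_upwards with i
  rw [hM i, eq_empty_iff_forall_notMem]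
  rintro φ ⟨hφm, hφd, -⟩
  have hφm' : Measurable (φ : Fin (300 * m i) × NN F8 → A.X) := hφm
  have hK0 := LG.kap_univ_pos lam h
  have hK1 := LG.kap_univ_lt_top lam h
  set Vol := mvol (300 * m i) lam univ with hVol
  have hVol_eq : Vol = (300 * m i : ℕ) * LG.kap lam univ := mvol_univ lam h
  have hVol0 : Vol ≠ 0 := by
    rw [hVol_eq]; exact mul_ne_zero (Nat.cast_ne_zero.2 (hk i).ne') hK0.ne'
  have hVolT : Vol ≠ ∞ := by
    rw [hVol_eq]; exact ENNReal.mul_ne_top (ENNReal.natCast_ne_top _) hK1.ne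
  have hcE : ENNReal.ofReal c ≠ 0 := by simpa using hc0
  have key : ∀ g : LG F8, g.g ∈ Bs → mvol (300 * m i) lam
      {p | sgn (φ (mact (FreeGroup.lift (σ i)) g p)) ≠ sgn (g • φ p)} ≤ Vol / 1000 := by
    intro g hgB
    have h1 := hφd g hgB
    have h2 : defect (modSpace (FreeGroup.lift (σ i)) (hk i) lam h) A φ g =
        Vol⁻¹ * ∫⁻ p : Fin (300 * m i) × NN F8,
          edist (φ (mact (FreeGroup.lift (σ i)) g p)) (g • φ p) ∂(mvol (300 * m i) lam) := by
      have hd : {p : Fin (300 * m i) × NN F8 |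
          (g, p) ∈ (modAction (FreeGroup.lift (σ i))).dom} = univ := by
        ext p; simp [modAction]
      show Vol⁻¹ * ∫⁻ p in {p : Fin (300 * m i) × NN F8 |
          (g, p) ∈ (modAction (FreeGroup.lift (σ i))).dom},
        edist (φ (mact (FreeGroup.lift (σ i)) g p)) (g • φ p) ∂(mvol (300 * m i) lam) = _
      rw [hd, Measure.restrict_univ]
    rw [h2] at h1
    have h3 : ∫⁻ p : Fin (300 * m i) × NN F8,
          edist (φ (mact (FreeGroup.lift (σ i)) g p)) (g • φ p) ∂(mvol (300 * m i) lam) ≤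
          Vol * (ENNReal.ofReal c / 1000) := by
      calc _ = Vol * (Vol⁻¹ * ∫⁻ p : Fin (300 * m i) × NN F8,
          edist (φ (mact (FreeGroup.lift (σ i)) g p)) (g • φ p) ∂(mvol (300 * m i) lam)) := by
            rw [← mul_assoc, ENNReal.mul_inv_cancel hVol0 hVolT, one_mul]
        _ ≤ _ := by gcongr
    have hmeas : Measurable (fun p : Fin (300 * m i) × NN F8 =>
        edist (φ (mact (FreeGroup.lift (σ i)) g p)) (g • φ p)) := by
      apply Measurable.edist
      · exact hφm'.comp ((continuous_mact _).comp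
          (continuous_const.prodMk continuous_id)).measurable
      · exact (continuous_const_smul g).measurable.comp hφm'
    have h4 := mul_meas_ge_le_lintegral (μ := mvol (300 * m i) lam) hmeas (ENNReal.ofReal c)
    have h5 : ENNReal.ofReal c * mvol (300 * m i) lam
        {p | sgn (φ (mact (FreeGroup.lift (σ i)) g p)) ≠ sgn (g • φ p)} ≤
        ENNReal.ofReal c * (Vol / 1000) := by
      calc _ ≤ ENNReal.ofReal c * mvol (300 * m i) lam {p | ENNReal.ofReal c ≤
            edist (φ (mact (FreeGroup.lift (σ i)) g p)) (g • φ p)} := by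
            refine mul_le_mul_right (measure_mono ?_) _
            intro p hp
            show ENNReal.ofReal c ≤ edist (φ (mact (FreeGroup.lift (σ i)) g p)) (g • φ p)
            rw [edist_dist]
            apply ENNReal.ofReal_le_ofReal
            by_contra hcon
            push Not at hcon
            exact hp (hcs _ _ hcon)
        _ ≤ _ := h4
        _ ≤ _ := h3
        _ = _ := by rw [div_eq_mul_inv, div_eq_mul_inv]; ring
    exact (ENNReal.mul_le_mul_iff_right hcE ENNReal.ofReal_ne_top).1 h5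
  refine no_sign (m i) (hm i) (σ i) (hcut i) lam h (fun p => sgn (φ p))
    (hc.measurable.comp hφm') ?_ ?_
  · intro n
    have h1 := key (nn n) (Or.inl rfl)
    refine le_trans (measure_mono ?_) h1
    intro p hp
    have hp' : sgn (φ (p.1, p.2 + n)) ≠ sgn (φ p) := hp
    show sgn (φ (mact (FreeGroup.lift (σ i)) (nn n) p)) ≠ sgn (nn n • φ p)
    have : mact (FreeGroup.lift (σ i)) (nn n) p = (p.1, p.2 + n) := by
      simp [mact, nn, shift_one, add_comm]
    rw [hn, this]
    exact hp'
  · intro s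
    have h1 := key (gen s) (Or.inr ⟨s, rfl⟩)
    refine le_trans (measure_mono ?_) h1
    intro p hp
    have hp' : sgn (φ (mact (FreeGroup.lift (σ i)) (gen s) p)) ≠ sgn (φ p) + 1 := hp
    show sgn (φ (mact (FreeGroup.lift (σ i)) (gen s) p)) ≠ sgn (gen s • φ p)
    rw [hg]
    exact hp'

end Pool.Agent.Helper99_LC
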