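import Mathlib

/-!
Random permutations: a nontrivial reduced word has few fixed points on average.
-/

set_option autoImplicit false

open Finset

namespace Pool.Agent.Helper99_LC

variable {r n : ℕ}

/-- The permutation of a letter. -/
def letter (σ : Fin r → Equiv.Perm (Fin n)) (a : Fin r × Bool) : Equiv.Perm (Fin n) :=
  if a.2 then σ a.1 else (σ a.1)⁻¹

/-- The action of a word (last letter first). -/
def wact (σ : Fin r → Equiv.Perm (Fin n)) : List (Fin r × Bool) → Fin n → Fin n
  | [], v => v
  | a :: l, v => letter σ a (wact σ l v)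

/-- All the suffixes of the word move `v` to different points. -/
def Dist (σ : Fin r → Equiv.Perm (Fin n)) (l : List (Fin r × Bool)) (v : Fin n) : Prop :=
  ∀ l₁ l₂ : List (Fin r × Bool), l₁ <:+ l → l₂ <:+ l → wact σ l₁ v = wact σ l₂ v → l₁ = l₂

/-- The set of points visited. -/
def visited (σ : Fin r → Equiv.Perm (Fin n)) (l : List (Fin r × Bool)) (v : Fin n) :
    Finset (Fin n) :=
  (l.tails.map (fun l' => wact σ l' v)).toFinset

lemma mem_visited {σ : Fin r → Equiv.Perm (Fin n)} {l : List (Fin r × Bool)} {v x : Fin n} :
    x ∈ visited σ l v ↔ ∃ l', l' <:+ l ∧ wact σ l' v = x := by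
  simp [visited]

lemma card_visited_le (σ : Fin r → Equiv.Perm (Fin n)) (l : List (Fin r × Bool)) (v : Fin n) :
    (visited σ l v).card ≤ l.length + 1 := by
  refine (List.toFinset_card_le _).trans ?_
  simp

/-- Modification of the tuple at the label of the letter `a` by a transposition. -/
def modify (σ : Fin r → Equiv.Perm (Fin n)) (a : Fin r × Bool) (y u : Fin n) :
    Fin r → Equiv.Perm (Fin n) :=
  Function.update σ a.1 (if a.2 then Equiv.swap y u * σ a.1 else σ a.1 * Equiv.swap y u)

lemma letter_modify_same (σ : Fin r → Equiv.Perm (Fin n)) (a : Fin r × Bool) (y u : Fin n) :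
    letter (modify σ a y u) a = Equiv.swap y u * letter σ a := by
  obtain ⟨s, b⟩ := a
  cases b <;> simp [letter, modify, mul_inv_rev]

lemma letter_modify_inv (σ : Fin r → Equiv.Perm (Fin n)) (s : Fin r) (b : Bool) (y u : Fin n) :
    letter (modify σ (s, b) y u) (s, !b) = letter σ (s, !b) * Equiv.swap y u := by
  cases b <;> simp [letter, modify, mul_inv_rev]

lemma letter_modify_ne (σ : Fin r → Equiv.Perm (Fin n)) (a c : Fin r × Bool) (y u : Fin n)
    (h : c.1 ≠ a.1) : letter (modify σ a y u) c = letter σ c := by
  simp [letter, modify, Function.update_of_ne h]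

lemma letter_inv_apply (σ : Fin r → Equiv.Perm (Fin n)) (s : Fin r) (b : Bool) (x : Fin n) :
    letter σ (s, !b) (letter σ (s, b) x) = x := by
  cases b <;> simp [letter]

lemma modify_modify (σ : Fin r → Equiv.Perm (Fin n)) (a : Fin r × Bool) (y u : Fin n) :
    modify (modify σ a y u) a y u = σ := by
  obtain ⟨s, b⟩ := a
  funext t
  by_cases ht : t = s
  · subst ht
    cases b <;> simp [modify, mul_assoc] <;> simp [← mul_assoc]
  · simp [modify, Function.update_of_ne ht]

/-- The modification does not change the path of the old word. -/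
lemma wact_modify (σ : Fin r → Equiv.Perm (Fin n)) (a : Fin r × Bool)
    (l : List (Fin r × Bool)) (v : Fin n) (hred : ∀ c l', l = c :: l' → ¬ (c.1 = a.1 ∧ c.2 = !a.2))
    (hD : Dist σ l v) (l₀ : List (Fin r × Bool)) (hl₀ : l₀ <:+ l)
    (hcol : letter σ a (wact σ l v) = wact σ l₀ v) (u : Fin n) (hu : u ∉ visited σ l v) :
    ∀ l₁, l₁ <:+ l → wact (modify σ a (wact σ l₀ v) u) l₁ v = wact σ l₁ v := by
  set y := wact σ l₀ v with hy
  intro l₁
  induction l₁ with
  | nil => intro _; rfl
  | cons c l₂ ih =>
    intro hs
    have hs2 : l₂ <:+ l := (List.suffix_cons c l₂).trans hs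
    have h1 := ih hs2
    show letter (modify σ a y u) c (wact (modify σ a y u) l₂ v) = letter σ c (wact σ l₂ v)
    rw [h1]
    have hne1 : wact σ (c :: l₂) v ≠ u := fun h => hu (mem_visited.2 ⟨_, hs, h⟩)
    have hne2 : wact σ l₂ v ≠ u := fun h => hu (mem_visited.2 ⟨_, hs2, h⟩)
    by_cases hc : c.1 = a.1
    · by_cases hb : c.2 = a.2
      · have hca : c = a := Prod.ext hc hb
        subst hca
        rw [letter_modify_same]
        show Equiv.swap y u (letter σ c (wact σ l₂ v)) = _
        apply Equiv.swap_apply_of_ne_of_ne
        · intro h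
          rw [← hcol] at h
          have h2 := (letter σ c).injective h
          have h3 := hD l₂ l hs2 (List.suffix_refl l) h2
          have h4 := hs.length_le
          rw [h3] at h4
          simp at h4
        · exact hne1
      · have hb' : c.2 = !a.2 := by
          cases h : c.2 <;> cases h' : a.2 <;> simp_all
        obtain ⟨s, b⟩ := a
        have hca : c = (s, !b) := Prod.ext hc hb'
        subst hca
        rw [letter_modify_inv]
        show letter σ (s, !b) (Equiv.swap y u (wact σ l₂ v)) = _
        rw [Equiv.swap_apply_of_ne_of_ne]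
        · intro h
          have h2 : wact σ ((s, !b) :: l₂) v = wact σ l v := by
            show letter σ (s, !b) (wact σ l₂ v) = _
            rw [h, ← hcol, letter_inv_apply]
          have h3 := hD _ l hs (List.suffix_refl l) h2
          exact hred (s, !b) l₂ h3.symm ⟨rfl, rfl⟩
        · exact hne2
    · rw [letter_modify_ne σ a c y u hc]

open Classical in
/-- Probability of a collision at a given step with a given earlier point. -/
lemma card_collision (a : Fin r × Bool)
    (l : List (Fin r × Bool)) (v : Fin n) (hred : ∀ c l', l = c :: l' → ¬ (c.1 = a.1 ∧ c.2 = !a.2))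
    (l₀ : List (Fin r × Bool)) (hl₀ : l₀ <:+ l) :
    (univ.filter (fun σ : Fin r → Equiv.Perm (Fin n) => Dist σ l v ∧
      letter σ a (wact σ l v) = wact σ l₀ v)).card * (n - (l.length + 1)) ≤
      Fintype.card (Fin r → Equiv.Perm (Fin n)) := by
  set A := univ.filter (fun σ : Fin r → Equiv.Perm (Fin n) => Dist σ l v ∧
      letter σ a (wact σ l v) = wact σ l₀ v) with hA
  have h1 : A.card * (n - (l.length + 1)) ≤
      (A.sigma (fun σ => (visited σ l v)ᶜ)).card := by
    rw [card_sigma, ← smul_eq_mul]
    apply card_nsmul_le_sum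
    intro σ _
    rw [card_compl, Fintype.card_fin]
    have := card_visited_le σ l v
    omega
  refine h1.trans ?_
  rw [← card_univ (α := Fin r → Equiv.Perm (Fin n))]
  apply card_le_card_of_injOn (fun z => modify z.1 a (wact z.1 l₀ v) z.2)
  · intro z _; exact mem_coe.2 (mem_univ _)
  · rintro ⟨σ, u⟩ hσ ⟨τ, w⟩ hτ h
    simp only [coe_sigma, Set.mem_sigma_iff, mem_coe, hA, mem_filter, mem_univ, true_and,
      mem_compl] at hσ hτ h
    obtain ⟨⟨hD, hcol⟩, hu⟩ := hσ
    obtain ⟨⟨hD', hcol'⟩, hw⟩ := hτ
    have e1 := wact_modify σ a l v hred hD l₀ hl₀ hcol u hu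
    have e2 := wact_modify τ a l v hred hD' l₀ hl₀ hcol' w hw
    have hy : wact σ l₀ v = wact τ l₀ v := by
      rw [← e1 l₀ hl₀, ← e2 l₀ hl₀, h]
    have hu' : u = w := by
      have k1 : letter (modify σ a (wact σ l₀ v) u) a
          (wact (modify σ a (wact σ l₀ v) u) l v) = u := by
        rw [e1 l (List.suffix_refl l), letter_modify_same]
        show Equiv.swap _ u (letter σ a (wact σ l v)) = u
        rw [hcol, Equiv.swap_apply_left]
      have k2 : letter (modify τ a (wact τ l₀ v) w) a
          (wact (modify τ a (wact τ l₀ v) w) l v) = w := by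
        rw [e2 l (List.suffix_refl l), letter_modify_same]
        show Equiv.swap _ w (letter τ a (wact τ l v)) = w
        rw [hcol', Equiv.swap_apply_left]
      rw [← k1, ← k2, h]
    subst hu'
    have hst : σ = τ := by
      rw [← modify_modify σ a (wact σ l₀ v) u, ← modify_modify τ a (wact τ l₀ v) u, h, hy]
    subst hst
    rfl

open Classical in
/-- Few tuples fail to have distinct points along a reduced word. -/
lemma card_not_dist : ∀ (l : List (Fin r × Bool)) (v : Fin n), FreeGroup.IsReduced l →
    (univ.filter (fun σ : Fin r → Equiv.Perm (Fin n) => ¬ Dist σ l v)).card *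
      (n - l.length) ≤ (l.length) * (l.length + 1) *
      Fintype.card (Fin r → Equiv.Perm (Fin n)) := by
  intro l v
  induction l with
  | nil =>
    intro _
    have : (univ.filter (fun σ : Fin r → Equiv.Perm (Fin n) => ¬ Dist σ [] v)) = ∅ := by
      apply filter_eq_empty_iff.2
      intro σ _ h
      apply h
      intro l₁ l₂ h1 h2 _
      rw [List.suffix_nil.1 h1, List.suffix_nil.1 h2]
    rw [this]; simp
  | cons a l ih =>
    intro hred
    have hred' : FreeGroup.IsReduced l := by
      have := hred
      simp only [FreeGroup.IsReduced] at this ⊢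
      exact this.tail
    have hredc : ∀ c l', l = c :: l' → ¬ (c.1 = a.1 ∧ c.2 = !a.2) := by
      rintro c l' rfl ⟨h1, h2⟩
      have := hred
      simp only [FreeGroup.IsReduced, List.isChain_cons_cons] at this
      have h3 := this.1 h1.symm
      rw [h2] at h3
      simp at h3
    have ih' := ih hred'
    set N := Fintype.card (Fin r → Equiv.Perm (Fin n)) with hN
    have hsub : (univ.filter (fun σ : Fin r → Equiv.Perm (Fin n) => ¬ Dist σ (a :: l) v)) ⊆
        (univ.filter (fun σ : Fin r → Equiv.Perm (Fin n) => ¬ Dist σ l v)) ∪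
        (l.tails.toFinset).biUnion (fun l₀ => univ.filter
          (fun σ : Fin r → Equiv.Perm (Fin n) => Dist σ l v ∧
            letter σ a (wact σ l v) = wact σ l₀ v)) := by
      intro σ hσ
      simp only [mem_filter, mem_univ, true_and, mem_union, mem_biUnion, List.mem_toFinset,
        List.mem_tails] at hσ ⊢
      by_cases hD : Dist σ l v
      · right
        by_contra hcon
        push Not at hcon
        apply hσ
        intro l₁ l₂ h1 h2 he
        rw [List.suffix_cons_iff] at h1 h2
        rcases h1 with rfl | h1 <;> rcases h2 with rfl | h2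
        · rfl
        · exact absurd he (hcon l₂ h2 hD)
        · exact absurd he.symm (hcon l₁ h1 hD)
        · exact hD l₁ l₂ h1 h2 he
      · left; exact hD
    have hc1 := card_le_card hsub
    have hc2 := hc1.trans (card_union_le _ _)
    have hc3 : ((l.tails.toFinset).biUnion (fun l₀ => univ.filter
          (fun σ : Fin r → Equiv.Perm (Fin n) => Dist σ l v ∧
            letter σ a (wact σ l v) = wact σ l₀ v))).card * (n - (l.length + 1)) ≤
            (l.length + 1) * N := by
      refine (Nat.mul_le_mul_right _ card_biUnion_le).trans ?_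
      rw [sum_mul]
      refine (sum_le_card_nsmul _ _ N ?_).trans ?_
      · intro l₀ hl₀
        have hl₀' : l₀ <:+ l := by simpa using hl₀
        exact card_collision a l v hredc l₀ hl₀'
      · rw [smul_eq_mul]
        apply Nat.mul_le_mul_right
        refine (List.toFinset_card_le _).trans ?_
        simp
    have hc4 : (univ.filter (fun σ : Fin r → Equiv.Perm (Fin n) => ¬ Dist σ l v)).card *
        (n - (l.length + 1)) ≤ l.length * (l.length + 1) * N :=
      (Nat.mul_le_mul_left _ (by omega)).trans ih'
    have hlen : (a :: l).length = l.length + 1 := rfl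
    rw [hlen]
    calc _ ≤ ((univ.filter (fun σ : Fin r → Equiv.Perm (Fin n) => ¬ Dist σ l v)).card + _) *
        (n - (l.length + 1)) := Nat.mul_le_mul_right _ hc2
      _ ≤ l.length * (l.length + 1) * N + (l.length + 1) * N := by
          rw [add_mul]; exact add_le_add hc4 hc3
      _ ≤ _ := by
          have : l.length * (l.length + 1) + (l.length + 1) ≤
            (l.length + 1) * (l.length + 1 + 1) := by nlinarith
          calc _ = (l.length * (l.length + 1) + (l.length + 1)) * N := by ring
            _ ≤ _ := Nat.mul_le_mul_right _ this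

lemma wact_eq_lift (σ : Fin r → Equiv.Perm (Fin n)) (l : List (Fin r × Bool)) (v : Fin n) :
    FreeGroup.lift σ (FreeGroup.mk l) v = wact σ l v := by
  induction l with
  | nil => simp [wact]
  | cons a l ih =>
    have h : FreeGroup.mk (a :: l) = FreeGroup.mk [a] * FreeGroup.mk l := by
      rw [FreeGroup.mul_mk]; rfl
    rw [h, map_mul, Equiv.Perm.mul_apply, ih]
    obtain ⟨s, b⟩ := a
    cases b <;> simp [wact, letter, FreeGroup.lift_mk]

open Classical in
/-- Average number of fixed points of a nontrivial word. -/
theorem card_fixed (w : FreeGroup (Fin r)) (hw : w ≠ 1) (v : Fin n) :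
    (univ.filter (fun σ : Fin r → Equiv.Perm (Fin n) => FreeGroup.lift σ w v = v)).card *
      (n - w.toWord.length) ≤ w.toWord.length * (w.toWord.length + 1) *
      Fintype.card (Fin r → Equiv.Perm (Fin n)) := by
  refine le_trans (Nat.mul_le_mul_right _ (card_le_card ?_))
    (card_not_dist w.toWord v FreeGroup.isReduced_toWord)
  intro σ hσ
  simp only [mem_filter, mem_univ, true_and] at hσ ⊢
  intro hD
  have h1 : wact σ w.toWord v = wact σ [] v := by
    rw [← wact_eq_lift, FreeGroup.mk_toWord, hσ]; rfl
  have h2 := hD _ _ (List.suffix_refl _) List.nil_suffix h1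
  exact hw (FreeGroup.toWord_eq_nil_iff.1 h2)

end Pool.Agent.Helper99_LC
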