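import Pool.Agent.Helper99_LC.Auto

/-!
Separation estimate for translated microstates.
-/

set_option autoImplicit false

open MeasureTheory Set Filter Topology
open scoped ENNReal Topology

namespace Pool.Agent.Helper99_LC

variable {Γ : Type} [Group Γ] [TopologicalSpace Γ] [DiscreteTopology Γ]

/-- Elements of the compact normal subgroup. -/
def nn (n : NN Γ) : LG Γ := ⟨n, 1⟩

lemma continuous_nn : Continuous (nn : NN Γ → LG Γ) :=
  LG.continuous_mk' continuous_id continuous_const

omit [TopologicalSpace Γ] [DiscreteTopology Γ] in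
lemma nn_add (x y : NN Γ) : nn (x + y) = nn x * nn y := by
  ext1
  · simp [nn, shift_one]
  · simp [nn]

/-- Elements which are nontrivial at the first `j` coordinates of the identity. -/
def Cj (Γ : Type) [Group Γ] (j : ℕ) : Set (NN Γ) := {n | ∃ i < j, n 1 i ≠ 0}

omit [TopologicalSpace Γ] [DiscreteTopology Γ] in
lemma isClosed_Cj (j : ℕ) : IsClosed (Cj Γ j) := by
  have : Cj Γ j = ⋃ i ∈ Finset.range j, {n : NN Γ | n 1 i ≠ 0} := by
    ext n; simp [Cj]
  rw [this]
  apply Set.Finite.isClosed_biUnion (Finset.finite_toSet _)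
  intro i _
  have h : IsClosed ({0}ᶜ : Set (ZMod 2)) := isClosed_discrete _
  have hc : Continuous (fun n : NN Γ => n 1 i) :=
    (continuous_apply i).comp (continuous_apply (1 : Γ))
  exact h.preimage hc

lemma continuous_nsmul' (A : PmpAction (LG Γ)) :
    Continuous (fun z : NN Γ × A.X => nn z.1 • z.2) :=
  (continuous_nn.comp continuous_fst).smul continuous_snd

/-- Points moved by at least `c` by all elements of `Cj`. -/
def Wc (A : PmpAction (LG Γ)) (j : ℕ) (c : ℝ) : Set A.X :=
  {x | ∀ n ∈ Cj Γ j, c < dist (nn n • x) x}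

lemma isOpen_Wc (A : PmpAction (LG Γ)) (j : ℕ) (c : ℝ) : IsOpen (Wc A j c) := by
  rw [← isClosed_compl_iff]
  have h1 : IsClosed {z : NN Γ × A.X | z.1 ∈ Cj Γ j ∧ dist (nn z.1 • z.2) z.2 ≤ c} := by
    apply IsClosed.inter
    · exact (isClosed_Cj j).preimage continuous_fst
    · exact isClosed_le ((continuous_nsmul' A).dist continuous_snd) continuous_const
  have h2 := h1.isCompact.image continuous_snd
  convert h2.isClosed using 1
  ext x
  simp only [Wc, mem_compl_iff, mem_ofPred_eq, mem_image, Prod.exists, exists_eq_right, not_forall,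
    not_lt, exists_prop]

lemma exists_W (A : PmpAction (LG Γ)) (hA : A.EssFree) (j : ℕ) (η : ℝ≥0∞) (hη : 0 < η) :
    ∃ c : ℝ, 0 < c ∧ 1 - η < (A.μ : Measure A.X) (Wc A j c) := by
  have hmono : Monotone (fun m : ℕ => Wc A j (1 / ((m : ℝ) + 1))) := by
    intro m m' hm x hx n hn
    refine lt_of_le_of_lt ?_ (hx n hn)
    apply one_div_le_one_div_of_le
    · positivity
    · have : (m : ℝ) ≤ m' := by exact_mod_cast hm
      linarith
  have hun : (A.μ : Measure A.X) (⋃ m : ℕ, Wc A j (1 / ((m : ℝ) + 1))) = 1 := by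
    have h1 : ∀ᵐ x ∂(A.μ : Measure A.X), x ∈ ⋃ m : ℕ, Wc A j (1 / ((m : ℝ) + 1)) := by
      filter_upwards [hA] with x hx
      rw [mem_iUnion]
      rcases (Cj Γ j).eq_empty_or_nonempty with he | hne
      · exact ⟨0, fun n hn => by rw [he] at hn; exact absurd hn (notMem_empty n)⟩
      · have hc : ContinuousOn (fun n : NN Γ => dist (nn n • x) x) (Cj Γ j) := by
          apply Continuous.continuousOn
          exact ((continuous_nsmul' A).comp (continuous_id.prodMk continuous_const)).dist
            continuous_const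
        obtain ⟨n0, hn0, hmin⟩ := (isClosed_Cj (Γ := Γ) j).isCompact.exists_isMinOn hne hc
        have hpos : 0 < dist (nn n0 • x) x := by
          rw [dist_pos]
          apply hx
          intro h
          obtain ⟨i, _, hi⟩ := hn0
          have h2 : n0 = 0 := congrArg LG.n h
          exact hi (by rw [h2]; rfl)
        obtain ⟨m, hm⟩ := exists_nat_one_div_lt hpos
        exact ⟨m, fun n hn => hm.trans_le (hmin hn)⟩
    have h2 := prob_compl_eq_zero_iff₀ (μ := (A.μ : Measure A.X))
      (MeasurableSet.iUnion fun m : ℕ => (isOpen_Wc A j (1 / ((m : ℝ) + 1))).measurableSet).nullMeasurableSet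
    exact h2.1 (by rwa [← mem_ae_iff])
  have htend := tendsto_measure_iUnion_atTop (μ := (A.μ : Measure A.X)) hmono
  rw [hun] at htend
  have h1 : 1 - η < 1 := ENNReal.sub_lt_self (by simp) (by simp) hη.ne'
  obtain ⟨m, hm⟩ := (htend.eventually (lt_mem_nhds h1)).exists
  exact ⟨1 / ((m : ℝ) + 1), by positivity, hm⟩

lemma exists_equi (A : PmpAction (LG Γ)) (e : ℝ) (he : 0 < e) :
    ∃ θ : ℝ, 0 < θ ∧ ∀ (n : NN Γ) (x y : A.X), dist x y < θ → dist (nn n • x) (nn n • y) < e := by
  set K : Set (NN Γ × (A.X × A.X)) := {z | e ≤ dist (nn z.1 • z.2.1) (nn z.1 • z.2.2)} with hK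
  have hKc : IsClosed K := by
    apply isClosed_le continuous_const
    apply Continuous.dist
    · exact (continuous_nsmul' A).comp (continuous_fst.prodMk (continuous_fst.comp continuous_snd))
    · exact (continuous_nsmul' A).comp (continuous_fst.prodMk (continuous_snd.comp continuous_snd))
  rcases K.eq_empty_or_nonempty with hE | hne
  · refine ⟨1, one_pos, fun n x y _ => ?_⟩
    by_contra hcon
    push Not at hcon
    have : (n, (x, y)) ∈ K := hcon
    rw [hE] at this
    exact this
  · have hc : ContinuousOn (fun z : NN Γ × (A.X × A.X) => dist z.2.1 z.2.2) K := by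
      apply Continuous.continuousOn
      exact (continuous_fst.comp continuous_snd).dist (continuous_snd.comp continuous_snd)
    obtain ⟨z0, hz0, hmin⟩ := hKc.isCompact.exists_isMinOn hne hc
    have hpos : 0 < dist z0.2.1 z0.2.2 := by
      rw [dist_pos]
      intro h
      have h1 : e ≤ dist (nn z0.1 • z0.2.1) (nn z0.1 • z0.2.2) := hz0
      rw [h, dist_self] at h1
      linarith
    refine ⟨dist z0.2.1 z0.2.2, hpos, fun n x y hxy => ?_⟩
    by_contra hcon
    push Not at hcon
    have h2 : (n, (x, y)) ∈ K := hcon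
    have h3 : dist z0.2.1 z0.2.2 ≤ dist x y := hmin h2
    linarith

section est

instance inst1 [Countable Γ] {k : ℕ} : BorelSpace (Fin k × NN Γ) := inferInstance
instance inst2 [Countable Γ] {k : ℕ} : BorelSpace ((Fin k × NN Γ) × NN Γ) := Prod.borelSpace
instance inst3 [Countable Γ] {k : ℕ} : OpensMeasurableSpace ((Fin k × NN Γ) × NN Γ) :=
  inferInstance

variable [Countable Γ] {k : ℕ} (lam : Measure (LG Γ)) (A : PmpAction (LG Γ))
  (φ : Fin k × NN Γ → A.X)

/-- The defect at a translated point. -/
noncomputable def Efun (c : Fin k → NN Γ) (p : Fin k × NN Γ) (n : NN Γ) : ℝ≥0∞ :=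
  edist (φ (p.1, p.2 + c p.1)) (nn n • φ (p.1, p.2 + c p.1 - n))

lemma measurable_Efun (hφ : Measurable φ) (c : Fin k → NN Γ) :
    Measurable (fun z : (Fin k × NN Γ) × NN Γ => Efun A φ c z.1 z.2) := by
  have hc : Continuous c := continuous_of_discreteTopology
  apply Measurable.edist
  · apply hφ.comp
    exact ((continuous_fst.comp continuous_fst).prodMk ((continuous_snd.comp continuous_fst).add
      (hc.comp (continuous_fst.comp continuous_fst)))).measurable
  · have h1 : Measurable (fun z : (Fin k × NN Γ) × NN Γ =>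
        φ (z.1.1, z.1.2 + c z.1.1 - z.2)) := by
      apply hφ.comp
      exact ((continuous_fst.comp continuous_fst).prodMk (((continuous_snd.comp continuous_fst).add
        (hc.comp (continuous_fst.comp continuous_fst))).sub continuous_snd)).measurable
    exact (continuous_nsmul' A).measurable.comp (measurable_snd.prodMk h1)

lemma Efun_integral (h : IsRightHaar lam) (hφ : Measurable φ) (c : Fin k → NN Γ) (D : ℝ≥0∞)
    (hD : ∀ n : NN Γ, ∫⁻ p : Fin k × NN Γ, edist (φ (p.1, p.2 + n)) (nn n • φ p)
      ∂(mvol k lam) ≤ D) :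
    ∫⁻ p, ∫⁻ n, Efun A φ c p n ∂(LG.kap lam) ∂(mvol k lam) ≤ D * LG.kap lam univ := by
  haveI := kap_sfinite lam h
  haveI : SFinite (mvol k lam) := by unfold mvol; infer_instance
  rw [lintegral_lintegral_swap]
  · calc ∫⁻ n, ∫⁻ p, Efun A φ c p n ∂(mvol k lam) ∂(LG.kap lam)
        ≤ ∫⁻ _, D ∂(LG.kap lam) := by
          apply lintegral_mono
          intro n
          have hp := fibT_pres (k := k) lam h (fun v => c v - n)
          have hm : Measurable (fun p : Fin k × NN Γ =>
              edist (φ (p.1, p.2 + n)) (nn n • φ p)) := by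
            apply Measurable.edist
            · exact hφ.comp (continuous_fst.prodMk
                (continuous_snd.add continuous_const)).measurable
            · exact (continuous_const_smul (nn n)).measurable.comp hφ
          refine le_trans (le_of_eq ?_) (hD n)
          rw [← hp.lintegral_comp hm]
          apply lintegral_congr
          intro p
          simp only [Efun, fibT]
          congr 3
          · abel_nf
          · rw [add_sub_assoc]
      _ = D * LG.kap lam univ := by rw [lintegral_const]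
  · exact (measurable_Efun A φ hφ c).aemeasurable

/-- The main separation estimate. -/
theorem sep_est (h : IsRightHaar lam) (hφ : Measurable φ) (j : ℕ)
    (e θ : ℝ) (he : 0 < e) (hθ : 0 < θ)
    (hequi : ∀ (n : NN Γ) (x y : A.X), dist x y < θ → dist (nn n • x) (nn n • y) < e / 4)
    (D : ℝ≥0∞)
    (hD : ∀ n : NN Γ, ∫⁻ p : Fin k × NN Γ, edist (φ (p.1, p.2 + n)) (nn n • φ p)
      ∂(mvol k lam) ≤ D)
    (hDs : D * ((ENNReal.ofReal θ)⁻¹ + (ENNReal.ofReal (e / 4))⁻¹) ≤ mvol k lam univ / 8)
    (hW : mvol k lam {p | φ p ∉ Wc A j e} ≤ mvol k lam univ / 8)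
    (ca cb : Fin k → NN Γ) (S : Finset (Fin k)) (hS : k ≤ 2 * S.card)
    (hc : ∀ v ∈ S, cb v - ca v ∈ Cj Γ j) :
    ENNReal.ofReal (e / 2) * (mvol k lam univ / 4) ≤
      ∫⁻ p, edist (φ (fibT ca p)) (φ (fibT cb p)) ∂(mvol k lam) := by
  haveI := kap_sfinite lam h
  haveI : SFinite (mvol k lam) := by unfold mvol; infer_instance
  have hK0 := LG.kap_univ_pos lam h
  have hK1 := LG.kap_univ_lt_top lam h
  set Vol := mvol k lam univ with hVol
  set K0 := LG.kap lam univ with hK0def
  have hVolT : Vol ≠ ∞ := by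
    rw [hVol, mvol_univ lam h]
    exact ENNReal.mul_ne_top (by simp) hK1.ne
  -- measurability
  have hxm : Measurable (fun p => φ (fibT ca p)) := hφ.comp (continuous_fibT ca).measurable
  have hym : Measurable (fun p => φ (fibT cb p)) := hφ.comp (continuous_fibT cb).measurable
  have hWm : MeasurableSet (Wc A j e) := (isOpen_Wc A j e).measurableSet
  set TS : Set (Fin k × NN Γ) := {p | p.1 ∈ S} with hTS
  set TN : Set (Fin k × NN Γ) := {p | φ (fibT ca p) ∉ Wc A j e} with hTN
  have hTSm : MeasurableSet TS := measurable_fst (Finset.measurableSet S)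
  have hTNm : MeasurableSet TN := hxm hWm.compl
  set T : Set (Fin k × NN Γ) := TS \ TN with hT
  have hTm : MeasurableSet T := hTSm.diff hTNm
  set F : Fin k × NN Γ → ℝ≥0∞ := fun p => edist (φ (fibT ca p)) (φ (fibT cb p)) with hF
  have hFm : Measurable F := hxm.edist hym
  set Bd : Set (Fin k × NN Γ) := T ∩ {p | F p < ENNReal.ofReal (e / 2)} with hBd
  -- the integral H
  set H : Fin k × NN Γ → ℝ≥0∞ := fun p =>
    (ENNReal.ofReal θ)⁻¹ * (∫⁻ n, Efun A φ ca p n ∂(LG.kap lam)) +
    (ENNReal.ofReal (e / 4))⁻¹ * (∫⁻ n, Efun A φ cb p n ∂(LG.kap lam)) with hH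
  have hHm1 : Measurable (fun p => ∫⁻ n, Efun A φ ca p n ∂(LG.kap lam)) :=
    (measurable_Efun A φ hφ ca).lintegral_prod_right'
  have hHm2 : Measurable (fun p => ∫⁻ n, Efun A φ cb p n ∂(LG.kap lam)) :=
    (measurable_Efun A φ hφ cb).lintegral_prod_right'
  have hHm : Measurable H := (hHm1.const_mul _).add (hHm2.const_mul _)
  have hHint : ∫⁻ p, H p ∂(mvol k lam) ≤ K0 * (Vol / 8) := by
    rw [hH, lintegral_add_left (hHm1.const_mul _), lintegral_const_mul _ hHm1,
      lintegral_const_mul _ hHm2]
    have h1 := Efun_integral lam A φ h hφ ca D hD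
    have h2 := Efun_integral lam A φ h hφ cb D hD
    calc _ ≤ (ENNReal.ofReal θ)⁻¹ * (D * K0) + (ENNReal.ofReal (e / 4))⁻¹ * (D * K0) := by
          gcongr
      _ = K0 * (D * ((ENNReal.ofReal θ)⁻¹ + (ENNReal.ofReal (e / 4))⁻¹)) := by ring
      _ ≤ _ := by gcongr
  have hBdH : ∀ p ∈ Bd, K0 ≤ H p := by
    rintro p ⟨⟨hpS, hpN⟩, hpF⟩
    have hxW : φ (fibT ca p) ∈ Wc A j e := by
      by_contra hcon; exact hpN hcon
    have hcc := hc p.1 hpS
    -- change of variables in the second integral
    have hshift : ∫⁻ n, Efun A φ cb p n ∂(LG.kap lam) =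
        ∫⁻ n, Efun A φ cb p (n + (cb p.1 - ca p.1)) ∂(LG.kap lam) := by
      have hm3 : Measurable (fun n : NN Γ => n + (cb p.1 - ca p.1)) :=
        (continuous_add_const _).measurable
      have hm4 : Measurable (fun n => Efun A φ cb p n) :=
        (measurable_Efun A φ hφ cb).comp measurable_prodMk_left
      conv_lhs => rw [← LG.kap_add lam h (cb p.1 - ca p.1)]
      rw [lintegral_map hm4 hm3]
    have hpt : ∀ n : NN Γ, (1 : ℝ≥0∞) ≤ (ENNReal.ofReal θ)⁻¹ * Efun A φ ca p n +
        (ENNReal.ofReal (e / 4))⁻¹ * Efun A φ cb p (n + (cb p.1 - ca p.1)) := by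
      intro n
      by_contra hcon
      push Not at hcon
      have h1 : (ENNReal.ofReal θ)⁻¹ * Efun A φ ca p n < 1 := lt_of_le_of_lt le_self_add hcon
      have h2 : (ENNReal.ofReal (e / 4))⁻¹ * Efun A φ cb p (n + (cb p.1 - ca p.1)) < 1 :=
        lt_of_le_of_lt le_add_self hcon
      have hθ' : ENNReal.ofReal θ ≠ 0 := by simpa using hθ
      have he' : ENNReal.ofReal (e / 4) ≠ 0 := by simpa using he
      have h1' : Efun A φ ca p n < ENNReal.ofReal θ := by
        rw [mul_comm, ← div_eq_mul_inv] at h1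
        rwa [ENNReal.div_lt_iff (Or.inl hθ') (Or.inl ENNReal.ofReal_ne_top), one_mul] at h1
      have h2' : Efun A φ cb p (n + (cb p.1 - ca p.1)) < ENNReal.ofReal (e / 4) := by
        rw [mul_comm, ← div_eq_mul_inv] at h2
        rwa [ENNReal.div_lt_iff (Or.inl he') (Or.inl ENNReal.ofReal_ne_top), one_mul] at h2
      set w := φ (p.1, p.2 + ca p.1 - n) with hw
      set x := φ (fibT ca p) with hx
      set y := φ (fibT cb p) with hy
      set d := cb p.1 - ca p.1 with hd
      have h3 : dist x (nn n • w) < θ := by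
        rw [Efun, edist_dist, ENNReal.ofReal_lt_ofReal_iff hθ] at h1'
        exact h1'
      have h4 : dist y (nn (n + d) • w) < e / 4 := by
        rw [Efun, edist_dist, ENNReal.ofReal_lt_ofReal_iff (by linarith)] at h2'
        have h5 : p.2 + cb p.1 - (n + d) = p.2 + ca p.1 - n := by rw [hd]; abel
        rw [h5] at h2'
        exact h2'
      have h5 : nn (n + d) • w = nn d • (nn n • w) := by
        rw [add_comm, nn_add, mul_smul]
      have h6 := hequi d x (nn n • w) h3
      have h7 : e < dist (nn d • x) x := hxW d hcc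
      have h8 : dist x y < e / 2 := by
        have : F p < ENNReal.ofReal (e / 2) := hpF
        simp only [hF, edist_dist] at this
        rwa [ENNReal.ofReal_lt_ofReal_iff (by linarith)] at this
      rw [h5] at h4
      have h9 : dist (nn d • x) x ≤ dist (nn d • x) (nn d • (nn n • w)) +
          dist (nn d • (nn n • w)) y + dist y x := dist_triangle4 _ _ _ _
      rw [dist_comm y x, dist_comm (nn d • (nn n • w)) y] at h9
      linarith
    have hm5 : Measurable (fun n => Efun A φ ca p n) :=
      (measurable_Efun A φ hφ ca).comp measurable_prodMk_left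
    have hm6 : Measurable (fun n => Efun A φ cb p (n + (cb p.1 - ca p.1))) :=
      ((measurable_Efun A φ hφ cb).comp measurable_prodMk_left).comp
        (continuous_add_const _).measurable
    calc K0 = ∫⁻ _, 1 ∂(LG.kap lam) := by rw [lintegral_one]
      _ ≤ ∫⁻ n, ((ENNReal.ofReal θ)⁻¹ * Efun A φ ca p n +
        (ENNReal.ofReal (e / 4))⁻¹ * Efun A φ cb p (n + (cb p.1 - ca p.1))) ∂(LG.kap lam) :=
          lintegral_mono hpt
      _ = H p := by
          rw [lintegral_add_left (hm5.const_mul _), lintegral_const_mul _ hm5,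
            lintegral_const_mul _ hm6, ← hshift]
  have hBdvol : mvol k lam Bd ≤ Vol / 8 := by
    have h1 : K0 * mvol k lam Bd ≤ K0 * (Vol / 8) := by
      calc K0 * mvol k lam Bd ≤ K0 * mvol k lam {p | K0 ≤ H p} := by
            gcongr; exact hBdH
        _ ≤ ∫⁻ p, H p ∂(mvol k lam) := mul_meas_ge_le_lintegral hHm K0
        _ ≤ _ := hHint
    exact (ENNReal.mul_le_mul_iff_right hK0.ne' hK1.ne).1 h1
  have hTNvol : mvol k lam TN ≤ Vol / 8 := by
    have hp := fibT_pres (k := k) lam h ca
    have h1 : mvol k lam TN = mvol k lam {p | φ p ∉ Wc A j e} := by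
      have h2 := hp.measure_preimage (s := {p | φ p ∉ Wc A j e})
        (hφ hWm.compl).nullMeasurableSet
      rw [← h2]; rfl
    rw [h1]; exact hW
  have hTSvol : Vol / 2 ≤ mvol k lam TS := by
    have h1 : mvol k lam TS = S.card * K0 := by
      have : TS = (S : Set (Fin k)) ×ˢ (univ : Set (NN Γ)) := by
        ext p; simp [hTS]
      rw [this, mvol, Measure.prod_prod, Measure.count_apply_finset]
    rw [h1, hVol, mvol_univ lam h]
    rw [ENNReal.div_le_iff (by simp) (by simp)]
    have h2 : (k : ℝ≥0∞) ≤ 2 * S.card := by exact_mod_cast hS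
    calc (k : ℝ≥0∞) * K0 ≤ 2 * S.card * K0 := by gcongr
      _ = _ := by ring
  have hgood : Vol / 4 ≤ mvol k lam (T \ Bd) := by
    have h1 : mvol k lam TS ≤ mvol k lam (T \ Bd) + mvol k lam Bd + mvol k lam TN := by
      calc mvol k lam TS ≤ mvol k lam ((T \ Bd) ∪ Bd ∪ TN) := by
            apply measure_mono
            intro p hp
            by_cases h1 : p ∈ TN
            · right; exact h1
            · left
              by_cases h2 : p ∈ Bd
              · right; exact h2
              · left; exact ⟨⟨hp, h1⟩, h2⟩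
        _ ≤ _ := (measure_union_le _ _).trans (by gcongr; exact measure_union_le _ _)
    have h2 : Vol / 4 + Vol / 4 ≤ mvol k lam (T \ Bd) + Vol / 4 := by
      calc Vol / 4 + Vol / 4 = Vol / 2 := by
            rw [← ENNReal.add_div, ← two_mul]
            rw [show (4 : ℝ≥0∞) = 2 * 2 by norm_num, ENNReal.mul_div_mul_left _ _ (by simp) (by simp)]
        _ ≤ mvol k lam TS := hTSvol
        _ ≤ _ := h1
        _ ≤ mvol k lam (T \ Bd) + Vol / 8 + Vol / 8 := by gcongr
        _ = mvol k lam (T \ Bd) + Vol / 4 := by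
            rw [add_assoc, ← ENNReal.add_div, ← two_mul]
            rw [show (8 : ℝ≥0∞) = 2 * 4 by norm_num, ENNReal.mul_div_mul_left _ _ (by simp) (by simp)]
    exact (ENNReal.add_le_add_iff_right (ENNReal.div_ne_top hVolT (by simp))).1 h2
  calc ENNReal.ofReal (e / 2) * (Vol / 4) ≤ ENNReal.ofReal (e / 2) * mvol k lam (T \ Bd) := by
        gcongr
    _ ≤ ENNReal.ofReal (e / 2) * mvol k lam {p | ENNReal.ofReal (e / 2) ≤ F p} := by
        gcongr
        rintro p ⟨hpT, hpB⟩
        show ENNReal.ofReal (e / 2) ≤ F p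
        by_contra hcon
        push Not at hcon
        exact hpB ⟨hpT, hcon⟩
    _ ≤ ∫⁻ p, F p ∂(mvol k lam) := mul_meas_ge_le_lintegral hFm _

end est

end Pool.Agent.Helper99_LC
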